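import Mathlib

/-!
Definitions: treewidth, minors, planarity (by Wagner's theorem), disjoint cycles.
-/

set_option autoImplicit false

namespace Pool.Agent.TH507.Host

/-- `G` has a tree decomposition of width at most `w`: a tree `T` and bags covering all vertices and
edges, such that the nodes whose bag contains a given vertex induce a connected subgraph of `T`, all
bags having at most `w + 1` vertices -/
def TwLE {V : Type} (G : SimpleGraph V) (w : ℕ) : Prop :=
  ∃ m : ℕ, ∃ T : SimpleGraph (Fin m), ∃ bag : Fin m → Set V,
    T.IsTree ∧ (∀ v, ∃ i, v ∈ bag i) ∧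
    (∀ u v, G.Adj u v → ∃ i, u ∈ bag i ∧ v ∈ bag i) ∧
    (∀ v, (T.induce {i | v ∈ bag i}).Connected) ∧
    ∀ i, (bag i).ncard ≤ w + 1

/-- the treewidth of a finite graph -/
noncomputable def tw {V : Type} (G : SimpleGraph V) : ℕ := sInf {w | TwLE G w}

/-- `H` is a minor of `G`: there are pairwise disjoint connected branch sets, one for each vertex of
`H`, with an edge of `G` between any two branch sets belonging to adjacent vertices of `H` -/
def IsMinor {W V : Type} (H : SimpleGraph W) (G : SimpleGraph V) : Prop :=
  ∃ B : W → Set V, (∀ x, (G.induce (B x)).Connected) ∧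
    (∀ x y, x ≠ y → Disjoint (B x) (B y)) ∧
    ∀ x y, H.Adj x y → ∃ u ∈ B x, ∃ v ∈ B y, G.Adj u v

/-- a finite graph is planar if and only if it has neither `K_5` nor `K_{3,3}` as a minor
(Wagner's theorem); here this is the definition of planarity -/
def Planar {W : Type} (H : SimpleGraph W) : Prop :=
  ¬ IsMinor (⊤ : SimpleGraph (Fin 5)) H ∧
    ¬ IsMinor (completeBipartiteGraph (Fin 3) (Fin 3)) H

/-- `H` has `k` pairwise vertex-disjoint cycles -/
def HasDisjointCycles {W : Type} (H : SimpleGraph W) (k : ℕ) : Prop :=
  ∃ (b : Fin k → W) (C : ∀ i, H.Walk (b i) (b i)), (∀ i, (C i).IsCycle) ∧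
    ∀ i j, i ≠ j → ∀ x, x ∈ (C i).support → x ∉ (C j).support

/-- the largest number of pairwise vertex-disjoint cycles of a finite graph -/
noncomputable def nu {W : Type} (H : SimpleGraph W) : ℕ := sSup {k | HasDisjointCycles H k}

end Pool.Agent.TH507.Host
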