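import Mathlib

/-!
Counting: a sparse graph on `s * t` vertices in which any two large disjoint sets are joined by an
edge, while every small set spans few edges. The graph is given by a list of `16 * (s * t)` pairs.
-/

set_option autoImplicit false

namespace Pool.Agent.TH507.RG

open Finset

section One

variable {V : Type} [Fintype V] [DecidableEq V] {M : ℕ}

/-- lists all whose entries avoid `A × B` and `B × A` -/
def badPair (M : ℕ) (A B : Finset V) : Finset (Fin M → V × V) :=
  Fintype.piFinset (fun _ => (A ×ˢ B ∪ B ×ˢ A)ᶜ)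

lemma card_badPair (A B : Finset V) (hd : Disjoint A B)
    (hA : Fintype.card V ≤ 4 * A.card) (hB : Fintype.card V ≤ 4 * B.card) :
    8 ^ M * (badPair M A B).card ≤ 7 ^ M * (Fintype.card V ^ 2) ^ M := by
  unfold badPair
  rw [Fintype.card_piFinset, prod_const, card_univ, Fintype.card_fin, ← mul_pow, ← mul_pow]
  apply Nat.pow_le_pow_left
  have hdis : Disjoint (A ×ˢ B) (B ×ˢ A) := by
    rw [Finset.disjoint_left]
    rintro ⟨x, y⟩ h1 h2
    rw [mem_product] at h1 h2
    exact (Finset.disjoint_left.1 hd) h1.1 h2.1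
  rw [card_compl, card_union_of_disjoint hdis, card_product, card_product, Fintype.card_prod]
  set n := Fintype.card V
  set a := A.card
  set b := B.card
  have h1 : n * n ≤ (4 * a) * (4 * b) := Nat.mul_le_mul hA hB
  have h2 : n * n ≤ 16 * (a * b) := by
    calc n * n ≤ (4 * a) * (4 * b) := h1
      _ = 16 * (a * b) := by ring
  have h3 : b * a = a * b := Nat.mul_comm _ _
  rw [h3, pow_two]
  omega

/-- lists with some pair of large sets not joined -/
def bad1 (V : Type) [Fintype V] [DecidableEq V] (M : ℕ) : Finset (Fin M → V × V) :=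
  ((univ : Finset (Finset V × Finset V)).filter (fun p => Disjoint p.1 p.2 ∧
    Fintype.card V ≤ 4 * p.1.card ∧ Fintype.card V ≤ 4 * p.2.card)).biUnion
    (fun p => badPair M p.1 p.2)

lemma card_bad1 : 8 ^ M * (bad1 V M).card ≤ 4 ^ (Fintype.card V) *
    (7 ^ M * (Fintype.card V ^ 2) ^ M) := by
  unfold bad1
  calc 8 ^ M * _ ≤ 8 ^ M * ∑ p ∈ (univ : Finset (Finset V × Finset V)).filter
        (fun p => Disjoint p.1 p.2 ∧
          Fintype.card V ≤ 4 * p.1.card ∧ Fintype.card V ≤ 4 * p.2.card),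
        (badPair M p.1 p.2).card := Nat.mul_le_mul_left _ card_biUnion_le
    _ = ∑ p ∈ (univ : Finset (Finset V × Finset V)).filter
        (fun p => Disjoint p.1 p.2 ∧
          Fintype.card V ≤ 4 * p.1.card ∧ Fintype.card V ≤ 4 * p.2.card),
        8 ^ M * (badPair M p.1 p.2).card := by rw [mul_sum]
    _ ≤ ∑ p ∈ (univ : Finset (Finset V × Finset V)).filter
        (fun p => Disjoint p.1 p.2 ∧
          Fintype.card V ≤ 4 * p.1.card ∧ Fintype.card V ≤ 4 * p.2.card),
        7 ^ M * (Fintype.card V ^ 2) ^ M := by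
        apply sum_le_sum
        intro p hp
        rw [mem_filter] at hp
        exact card_badPair _ _ hp.2.1 hp.2.2.1 hp.2.2.2
    _ = _ * (7 ^ M * (Fintype.card V ^ 2) ^ M) := by rw [sum_const, smul_eq_mul]
    _ ≤ 4 ^ (Fintype.card V) * (7 ^ M * (Fintype.card V ^ 2) ^ M) := by
        apply Nat.mul_le_mul_right
        refine (card_filter_le _ _).trans ?_
        rw [card_univ, Fintype.card_prod, Fintype.card_finset, ← mul_pow]
        norm_num

/-- lists all whose entries with index in `I` lie in `S × S` -/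
def badIn (S : Finset V) (I : Finset (Fin M)) : Finset (Fin M → V × V) :=
  Fintype.piFinset (fun i => if i ∈ I then S ×ˢ S else univ)

lemma card_badIn (S : Finset V) (I : Finset (Fin M)) :
    (badIn S I).card = (S.card ^ 2) ^ I.card * (Fintype.card V ^ 2) ^ (M - I.card) := by
  unfold badIn
  rw [Fintype.card_piFinset]
  have h1 : ∀ i : Fin M, ((if i ∈ I then S ×ˢ S else (univ : Finset (V × V)))).card
      = if i ∈ I then S.card ^ 2 else Fintype.card V ^ 2 := by
    intro i
    split_ifs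
    · rw [card_product, pow_two]
    · rw [card_univ, Fintype.card_prod, pow_two]
  rw [prod_congr rfl (fun i _ => h1 i), prod_ite, prod_const, prod_const]
  congr 2
  · congr 1
    ext i
    simp
  · have : (univ.filter (fun i : Fin M => i ∉ I)) = Iᶜ := by
      ext i
      simp
    rw [this, card_compl, Fintype.card_fin]

/-- lists for which some nonempty set `S` of at most `t` elements contains at least
`|S| + b` of the pairs -/
def bad2 (V : Type) [Fintype V] [DecidableEq V] (M t b : ℕ) : Finset (Fin M → V × V) :=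
  (Finset.Icc 1 t).biUnion (fun k => (powersetCard k (univ : Finset V)).biUnion
    (fun S => (powersetCard (k + b) (univ : Finset (Fin M))).biUnion (fun I => badIn S I)))

lemma card_bad2 (t b : ℕ) : (bad2 V M t b).card ≤ ∑ k ∈ Finset.Icc 1 t,
    (Fintype.card V).choose k * (M.choose (k + b) *
      ((k ^ 2) ^ (k + b) * (Fintype.card V ^ 2) ^ (M - (k + b)))) := by
  unfold bad2
  refine card_biUnion_le.trans (sum_le_sum fun k _ => ?_)
  refine card_biUnion_le.trans ?_
  calc _ ≤ ∑ S ∈ powersetCard k (univ : Finset V), (M.choose (k + b) *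
      ((k ^ 2) ^ (k + b) * (Fintype.card V ^ 2) ^ (M - (k + b)))) := by
        apply sum_le_sum
        intro S hS
        refine card_biUnion_le.trans ?_
        rw [mem_powersetCard] at hS
        calc _ = ∑ I ∈ powersetCard (k + b) (univ : Finset (Fin M)),
            ((k ^ 2) ^ (k + b) * (Fintype.card V ^ 2) ^ (M - (k + b))) := by
              apply sum_congr rfl
              intro I hI
              rw [mem_powersetCard] at hI
              rw [card_badIn, hS.2, hI.2]
          _ = _ := by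
              rw [sum_const, card_powersetCard, card_univ, Fintype.card_fin, smul_eq_mul]
          _ ≤ _ := le_rfl
    _ = _ := by
      rw [sum_const, card_powersetCard, card_univ, smul_eq_mul]
    _ ≤ _ := le_rfl

end One

/-! ### Estimates -/

lemma choose_le_real (n k : ℕ) (hk : 1 ≤ k) :
    (n.choose k : ℝ) ≤ (Real.exp 1 * n / k) ^ k := by
  have h1 : (n.choose k : ℝ) ≤ (n : ℝ) ^ k / k.factorial := Nat.choose_le_pow_div k n
  have h2 : (k : ℝ) ^ k / k.factorial ≤ Real.exp k :=
    Real.pow_div_factorial_le_exp (k : ℝ) (Nat.cast_nonneg k) k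
  have hk0 : (0 : ℝ) < k := by exact_mod_cast hk
  have h3 : (0 : ℝ) < (k : ℝ) ^ k := pow_pos hk0 k
  have h4 : Real.exp k = Real.exp 1 ^ k := by
    rw [← Real.exp_nat_mul, mul_one]
  calc (n.choose k : ℝ) ≤ (n : ℝ) ^ k / k.factorial := h1
    _ = ((n : ℝ) ^ k / (k : ℝ) ^ k) * ((k : ℝ) ^ k / k.factorial) := by
        field_simp
    _ ≤ ((n : ℝ) ^ k / (k : ℝ) ^ k) * Real.exp k := by
        apply mul_le_mul_of_nonneg_left h2
        positivity
    _ = (Real.exp 1 * n / k) ^ k := by
        rw [h4, div_pow, mul_pow]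
        ring

lemma exp_one_lt : Real.exp 1 < 2.7183 := by
  have := Real.exp_one_lt_d9
  linarith

/-- the main estimate for one term -/
lemma term_le {s t b k : ℕ} (hs : 1 ≤ s) (ht : 1 ≤ t) (hk : 1 ≤ k) (hkt : k ≤ t) :
    ((s * t).choose k : ℝ) * (((16 * (s * t)).choose (k + b) : ℝ) *
      (((k : ℝ) ^ 2) ^ (k + b) / (((s * t : ℕ) : ℝ) ^ 2) ^ (k + b))) ≤
      119 ^ t * (44 / (s : ℝ)) ^ b := by
  have hk0 : (0 : ℝ) < k := by exact_mod_cast hk
  have hs0 : (0 : ℝ) < s := by exact_mod_cast hs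
  have ht0 : (0 : ℝ) < t := by exact_mod_cast ht
  set N : ℝ := ((s * t : ℕ) : ℝ) with hN
  have hN0 : 0 < N := by rw [hN]; push_cast; positivity
  have hN' : N = s * t := by rw [hN]; push_cast; ring
  have he := exp_one_lt
  have he0 := Real.exp_pos 1
  have h1 := choose_le_real (s * t) k hk
  have h2 := choose_le_real (16 * (s * t)) (k + b) (by omega)
  have h3 : (Real.exp 1 * ((16 * (s * t) : ℕ) : ℝ) / ((k + b : ℕ) : ℝ)) ≤
      Real.exp 1 * (16 * N) / k := by
    have e1 : ((16 * (s * t) : ℕ) : ℝ) = 16 * N := by rw [hN']; push_cast; ring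
    rw [e1]
    apply div_le_div_of_nonneg_left (by positivity) hk0
    push_cast
    linarith [(Nat.cast_nonneg b : (0 : ℝ) ≤ b)]
  have h4 : ((16 * (s * t)).choose (k + b) : ℝ) ≤ (Real.exp 1 * (16 * N) / k) ^ (k + b) :=
    h2.trans (pow_le_pow_left₀ (by positivity) h3 _)
  have h5 : ((k : ℝ) ^ 2) ^ (k + b) / (N ^ 2) ^ (k + b) = ((k / N) ^ 2) ^ (k + b) := by
    rw [← div_pow, ← div_pow]
  rw [h5]
  have h6 : (((16 * (s * t)).choose (k + b) : ℝ) * ((k / N) ^ 2) ^ (k + b)) ≤
      (16 * Real.exp 1 * (k / N)) ^ (k + b) := by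
    calc _ ≤ (Real.exp 1 * (16 * N) / k) ^ (k + b) * ((k / N) ^ 2) ^ (k + b) :=
          mul_le_mul_of_nonneg_right h4 (by positivity)
      _ = (16 * Real.exp 1 * (k / N)) ^ (k + b) := by
          rw [← mul_pow]
          congr 1
          field_simp
  have h7 : ((s * t).choose k : ℝ) * (((16 * (s * t)).choose (k + b) : ℝ) *
      ((k / N) ^ 2) ^ (k + b)) ≤
      (Real.exp 1 * N / k) ^ k * (16 * Real.exp 1 * (k / N)) ^ (k + b) := by
    apply mul_le_mul h1 h6 (by positivity) (by positivity)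
  refine h7.trans ?_
  have h8 : (Real.exp 1 * N / k) ^ k * (16 * Real.exp 1 * (k / N)) ^ (k + b) =
      (16 * Real.exp 1 ^ 2) ^ k * (16 * Real.exp 1 * (k / N)) ^ b := by
    rw [pow_add, ← mul_assoc, ← mul_pow]
    congr 2
    field_simp
  rw [h8]
  have h9 : (16 * Real.exp 1 ^ 2) ^ k ≤ (119 : ℝ) ^ t := by
    have e1 : 16 * Real.exp 1 ^ 2 ≤ 119 := by nlinarith
    calc (16 * Real.exp 1 ^ 2) ^ k ≤ (119 : ℝ) ^ k := pow_le_pow_left₀ (by positivity) e1 _
      _ ≤ 119 ^ t := pow_le_pow_right₀ (by norm_num) hkt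
  have h10 : (16 * Real.exp 1 * (k / N)) ^ b ≤ (44 / (s : ℝ)) ^ b := by
    apply pow_le_pow_left₀ (by positivity)
    have e1 : (k : ℝ) / N ≤ 1 / s := by
      rw [hN', div_le_div_iff₀ (by positivity) hs0]
      have : (k : ℝ) ≤ t := by exact_mod_cast hkt
      nlinarith
    calc 16 * Real.exp 1 * (k / N) ≤ 16 * Real.exp 1 * (1 / s) :=
          mul_le_mul_of_nonneg_left e1 (by positivity)
      _ ≤ 44 / s := by
          rw [mul_one_div]
          apply div_le_div_of_nonneg_right _ hs0.le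
          linarith
  exact mul_le_mul h9 h10 (by positivity) (by positivity)

/-- the list exists -/
theorem exists_list {s t b : ℕ} (hs : 1 ≤ s) (ht : 1 ≤ t)
    (hb : 2 * t * 119 ^ t * 44 ^ b < s ^ b) :
    ∃ φ : Fin (16 * (s * t)) → Fin (s * t) × Fin (s * t),
      (∀ A B : Finset (Fin (s * t)), Disjoint A B → s * t ≤ 4 * A.card → s * t ≤ 4 * B.card →
        ∃ i, φ i ∈ A ×ˢ B ∪ B ×ˢ A) ∧
      (∀ S : Finset (Fin (s * t)), S.Nonempty → S.card ≤ t →
        (univ.filter (fun i => φ i ∈ S ×ˢ S)).card < S.card + b) := by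
  classical
  set M := 16 * (s * t) with hM
  set V := Fin (s * t)
  have hN : 1 ≤ s * t := Nat.one_le_iff_ne_zero.2 (by positivity)
  have hcardV : Fintype.card V = s * t := Fintype.card_fin _
  -- first bad set
  have h1 : 2 * (bad1 V M).card ≤ ((s * t) ^ 2) ^ M := by
    have h := card_bad1 (V := V) (M := M)
    rw [hcardV] at h
    have e1 : 2 * 4 ^ (s * t) * 7 ^ M ≤ 8 ^ M := by
      rw [hM, pow_mul 7, pow_mul 8]
      calc 2 * 4 ^ (s * t) * (7 ^ 16) ^ (s * t) ≤ 2 ^ (s * t) * 4 ^ (s * t) * (7 ^ 16) ^ (s * t) := by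
            apply Nat.mul_le_mul_right
            apply Nat.mul_le_mul_right
            calc 2 = 2 ^ 1 := rfl
              _ ≤ 2 ^ (s * t) := Nat.pow_le_pow_right (by norm_num) hN
        _ = (2 * 4 * 7 ^ 16) ^ (s * t) := by rw [mul_pow, mul_pow]
        _ ≤ (8 ^ 16) ^ (s * t) := Nat.pow_le_pow_left (by norm_num) _
    have e2 : 8 ^ M * (2 * (bad1 V M).card) ≤ 8 ^ M * (((s * t) ^ 2) ^ M) := by
      calc 8 ^ M * (2 * (bad1 V M).card) = 2 * (8 ^ M * (bad1 V M).card) := by ring
        _ ≤ 2 * (4 ^ (s * t) * (7 ^ M * ((s * t) ^ 2) ^ M)) := Nat.mul_le_mul_left _ h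
        _ = (2 * 4 ^ (s * t) * 7 ^ M) * ((s * t) ^ 2) ^ M := by ring
        _ ≤ 8 ^ M * ((s * t) ^ 2) ^ M := Nat.mul_le_mul_right _ e1
    exact Nat.le_of_mul_le_mul_left e2 (by positivity)
  -- second bad set
  have h2 : 2 * ((bad2 V M t b).card : ℝ) < (((s * t : ℕ) : ℝ) ^ 2) ^ M := by
    have h := card_bad2 (V := V) (M := M) t b
    rw [hcardV] at h
    have h' : ((bad2 V M t b).card : ℝ) ≤ ∑ k ∈ Finset.Icc 1 t,
        ((s * t).choose k : ℝ) * ((M.choose (k + b) : ℝ) *
      (((k : ℝ) ^ 2) ^ (k + b) * (((s * t : ℕ) : ℝ) ^ 2) ^ (M - (k + b)))) := by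
      have := (Nat.cast_le (α := ℝ)).2 h
      push_cast at this ⊢
      exact this
    set N : ℝ := ((s * t : ℕ) : ℝ) with hNdef
    have hN0 : 0 < N := by rw [hNdef]; exact_mod_cast hN
    have hterm : ∀ k ∈ Finset.Icc 1 t, ((s * t).choose k : ℝ) * ((M.choose (k + b) : ℝ) *
      (((k : ℝ) ^ 2) ^ (k + b) * (N ^ 2) ^ (M - (k + b)))) ≤
        (119 ^ t * (44 / (s : ℝ)) ^ b) * (N ^ 2) ^ M := by
      intro k hk
      rw [Finset.mem_Icc] at hk
      by_cases hkM : k + b ≤ M
      · have e1 : (N ^ 2) ^ M = (N ^ 2) ^ (M - (k + b)) * (N ^ 2) ^ (k + b) := by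
          rw [← pow_add]
          congr 1
          omega
        have e2 := term_le (b := b) hs ht hk.1 hk.2
        rw [← hNdef, ← hM] at e2
        have e3 : ((s * t).choose k : ℝ) * ((M.choose (k + b) : ℝ) *
            (((k : ℝ) ^ 2) ^ (k + b) * (N ^ 2) ^ (M - (k + b)))) =
            (((s * t).choose k : ℝ) * ((M.choose (k + b) : ℝ) *
            (((k : ℝ) ^ 2) ^ (k + b) / (N ^ 2) ^ (k + b)))) * (N ^ 2) ^ M := by
          rw [e1]
          field_simp
        rw [e3]
        exact mul_le_mul_of_nonneg_right e2 (by positivity)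
      · have : M.choose (k + b) = 0 := Nat.choose_eq_zero_of_lt (by omega)
        rw [this]
        simp only [Nat.cast_zero, zero_mul, mul_zero]
        positivity
    have h3 : ((bad2 V M t b).card : ℝ) ≤ t * ((119 ^ t * (44 / (s : ℝ)) ^ b) * (N ^ 2) ^ M) := by
      refine h'.trans ((Finset.sum_le_sum hterm).trans ?_)
      rw [Finset.sum_const, Nat.card_Icc, Nat.add_sub_cancel, nsmul_eq_mul]
    have hs0 : (0 : ℝ) < s := by exact_mod_cast hs
    have h4 : 2 * ((t : ℝ) * (119 ^ t * (44 / (s : ℝ)) ^ b)) < 1 := by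
      have e1 : (2 * t * 119 ^ t * 44 ^ b : ℝ) < (s : ℝ) ^ b := by exact_mod_cast hb
      rw [div_pow]
      have : 2 * ((t : ℝ) * (119 ^ t * (44 ^ b / (s : ℝ) ^ b))) =
          (2 * t * 119 ^ t * 44 ^ b) / (s : ℝ) ^ b := by ring
      rw [this, div_lt_one (by positivity)]
      exact e1
    have h5 : 0 < (N ^ 2) ^ M := by positivity
    calc 2 * ((bad2 V M t b).card : ℝ) ≤
          2 * (t * ((119 ^ t * (44 / (s : ℝ)) ^ b) * (N ^ 2) ^ M)) := by linarith
      _ = (2 * ((t : ℝ) * (119 ^ t * (44 / (s : ℝ)) ^ b))) * (N ^ 2) ^ M := by ring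
      _ < 1 * (N ^ 2) ^ M := mul_lt_mul_of_pos_right h4 h5
      _ = (N ^ 2) ^ M := one_mul _
  have h2' : 2 * (bad2 V M t b).card < ((s * t) ^ 2) ^ M := by exact_mod_cast h2
  have h3 : (bad1 V M ∪ bad2 V M t b).card < (univ : Finset (Fin M → V × V)).card := by
    have e1 := card_union_le (bad1 V M) (bad2 V M t b)
    rw [card_univ, Fintype.card_fun, Fintype.card_prod, Fintype.card_fin, Fintype.card_fin,
      ← pow_two]
    omega
  obtain ⟨φ, -, hφ⟩ := exists_mem_notMem_of_card_lt_card h3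
  rw [mem_union, not_or] at hφ
  refine ⟨φ, ?_, ?_⟩
  · intro A B hd hA hB
    by_contra hcon
    push Not at hcon
    apply hφ.1
    unfold bad1
    rw [mem_biUnion]
    refine ⟨(A, B), ?_, ?_⟩
    · rw [mem_filter, hcardV]
      exact ⟨mem_univ _, hd, hA, hB⟩
    · unfold badPair
      rw [Fintype.mem_piFinset]
      intro i
      rw [mem_compl]
      exact hcon i
  · intro S hS hSt
    by_contra hcon
    push Not at hcon
    apply hφ.2
    unfold bad2
    rw [mem_biUnion]
    refine ⟨S.card, ?_, ?_⟩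
    · rw [Finset.mem_Icc]
      exact ⟨card_pos.2 hS, hSt⟩
    · rw [mem_biUnion]
      refine ⟨S, ?_, ?_⟩
      · rw [mem_powersetCard]
        exact ⟨subset_univ _, rfl⟩
      · rw [mem_biUnion]
        obtain ⟨I, hI, hIc⟩ := exists_subset_card_eq hcon
        refine ⟨I, ?_, ?_⟩
        · rw [mem_powersetCard]
          exact ⟨subset_univ _, hIc⟩
        · unfold badIn
          rw [Fintype.mem_piFinset]
          intro i
          split_ifs with hi
          · exact (mem_filter.1 (hI hi)).2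
          · exact mem_univ _

end Pool.Agent.TH507.RG
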