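import Mathlib
import Pool.Agent.TH507.Defs
import Pool.Agent.TH507.RG
import Pool.Agent.W126.SplitConv

/-!
The host graph: large treewidth and no `s` disjoint models of `K_{2,m}`.
-/

set_option autoImplicit false

namespace Pool.Agent.TH507.Host

open Finset

lemma bw_of_twLE {V : Type} [Fintype V] [DecidableEq V] {G : SimpleGraph V} {w : ℕ}
    (h : TwLE G w) : Pool.Agent.W126.Split.Bw G univ (w + 1) := by
  classical
  obtain ⟨m, T, bag, hT, hcov, hedge, hconn, hcard⟩ := h
  refine ⟨Fin m, inferInstance, T, fun i => (bag i).toFinset, hT, fun i => subset_univ _, ?_, ?_,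
    ?_, ?_⟩
  · intro v _
    obtain ⟨i, hi⟩ := hcov v
    exact ⟨i, Set.mem_toFinset.2 hi⟩
  · intro u _ v _ huv
    obtain ⟨i, hi, hi'⟩ := hedge u v huv
    exact ⟨i, Set.mem_toFinset.2 hi, Set.mem_toFinset.2 hi'⟩
  · intro v i j hi hj
    rw [Set.mem_toFinset] at hi hj
    obtain ⟨p⟩ := (hconn v).preconnected ⟨i, hi⟩ ⟨j, hj⟩
    obtain ⟨q, hq⟩ := Pool.Agent.W126.TAC.walk_of_induce p
    exact ⟨q, fun x hx => Set.mem_toFinset.2 (hq x hx)⟩
  · intro i
    rw [← Set.ncard_eq_toFinset_card']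
    exact hcard i

/-- a graph in which any two disjoint sets containing at least a quarter of the vertices are joined
by an edge has large treewidth -/
lemma not_twLE {V : Type} [Fintype V] [DecidableEq V] {G : SimpleGraph V}
    (hG : ∀ A B : Finset V, Disjoint A B → Fintype.card V ≤ 4 * A.card →
      Fintype.card V ≤ 4 * B.card → ∃ u ∈ A, ∃ v ∈ B, G.Adj u v) {w : ℕ}
    (hw : 4 * (w + 1) ≤ Fintype.card V) : ¬ TwLE G w := by
  intro h
  obtain ⟨Z, G1, G2, -, -, hd, hno, h1, h2⟩ :=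
    Pool.Agent.W126.Split.exists_sep (bw_of_twLE h) (Subset.refl _) (by rw [card_univ]; exact hw)
  rw [univ_inter, card_univ] at h1 h2
  obtain ⟨u, hu, v, hv, huv⟩ := hG G1 G2 hd h1 h2
  exact hno u hu v hv huv

/-- the graph given by a list of pairs -/
def gr {V : Type} {M : ℕ} (φ : Fin M → V × V) : SimpleGraph V where
  Adj x y := x ≠ y ∧ ∃ i, φ i = (x, y) ∨ φ i = (y, x)
  symm := ⟨fun _ _ h => ⟨h.1.symm, h.2.imp fun _ h => h.symm⟩⟩
  loopless := ⟨fun _ h => h.1 rfl⟩

/-- a set of edges with both ends in `S` has at most as many elements as there are entries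
of the list in `S × S` -/
lemma card_edges_le {V : Type} [DecidableEq V] {M : ℕ} (φ : Fin M → V × V) (S : Finset V)
    (E : Finset (Sym2 V)) (hE : ∀ e ∈ E, ∃ x ∈ S, ∃ y ∈ S, e = s(x, y) ∧ (gr φ).Adj x y) :
    E.card ≤ (univ.filter (fun i => φ i ∈ S ×ˢ S)).card := by
  classical
  have h : E ⊆ (univ.filter (fun i => φ i ∈ S ×ˢ S)).image (fun i => s((φ i).1, (φ i).2)) := by
    intro e he
    obtain ⟨x, hx, y, hy, rfl, hxy, i, hi⟩ := hE e he
    rw [mem_image]
    refine ⟨i, ?_, ?_⟩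
    · rw [mem_filter, mem_product]
      rcases hi with hi | hi <;> rw [hi] <;> simp [hx, hy]
    · rcases hi with hi | hi <;> rw [hi]
      exact Sym2.eq_swap
  exact (card_le_card h).trans card_image_le

/-- the edges of `G` inside a set -/
lemma exists_inner {V : Type} [Fintype V] [DecidableEq V] {G : SimpleGraph V} (B : Set V)
    (hB : (G.induce B).Connected) :
    ∃ E : Finset (Sym2 V), (∀ e ∈ E, ∃ x ∈ B, ∃ y ∈ B, e = s(x, y) ∧ G.Adj x y) ∧
      B.ncard ≤ E.card + 1 := by
  classical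
  have h1 := hB.card_vert_le_card_edgeSet_add_one
  refine ⟨((G.induce B).edgeSet.toFinset).image (Sym2.map Subtype.val), ?_, ?_⟩
  · intro e he
    rw [mem_image] at he
    obtain ⟨e', he', rfl⟩ := he
    rw [Set.mem_toFinset] at he'
    induction e' using Sym2.ind with
    | _ x y => exact ⟨x.1, x.2, y.1, y.2, rfl, he'⟩
  · rw [card_image_of_injective _ (Sym2.map.injective Subtype.val_injective),
      ← Set.ncard_eq_toFinset_card']
    exact h1

/-- The counting lemma: a model of a graph `H` on a type `W`, with connected disjoint branch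
sets: the number of edges inside the union of the branch sets is at least
`|union| - |W| + |E|` where `E` is a set of edges of `H` -/
lemma count_model {V W P : Type} [Fintype V] [DecidableEq V] [Fintype W] [DecidableEq W]
    [Fintype P] {G : SimpleGraph V} (B : W → Finset V)
    (hB : ∀ x, (G.induce (B x : Set V)).Connected)
    (hd : ∀ x y, x ≠ y → Disjoint (B x) (B y))
    (a b : P → W) (hab : ∀ p, a p ≠ b p)
    (hinj : ∀ p q, (a p = a q ∧ b p = b q) ∨ (a p = b q ∧ b p = a q) → p = q)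
    (hadj : ∀ p, ∃ u ∈ B (a p), ∃ v ∈ B (b p), G.Adj u v) :
    ∃ E : Finset (Sym2 V),
      (∀ e ∈ E, ∃ x ∈ univ.biUnion B, ∃ y ∈ univ.biUnion B, e = s(x, y) ∧ G.Adj x y) ∧
      (univ.biUnion B).card + Fintype.card P ≤ E.card + Fintype.card W := by
  classical
  have h1 := fun x => exists_inner (B x : Set V) (hB x)
  choose E hE1 hE2 using h1
  choose u hu v hv huv using hadj
  have hcard : (univ.biUnion B).card = ∑ x, (B x).card :=
    card_biUnion (fun x _ y _ hxy => hd x y hxy)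
  have hEd : ∀ x y, x ≠ y → Disjoint (E x) (E y) := by
    intro x y hxy
    rw [Finset.disjoint_left]
    intro e h2 h3
    obtain ⟨c, hc, d, hd', rfl, -⟩ := hE1 x e h2
    obtain ⟨c', hc', d', hd'', h4, -⟩ := hE1 y _ h3
    rw [Sym2.eq_iff] at h4
    have hdis := Finset.disjoint_left.1 (hd x y hxy)
    rcases h4 with ⟨rfl, rfl⟩ | ⟨rfl, rfl⟩
    · exact hdis (mem_coe.1 hc) (mem_coe.1 hc')
    · exact hdis (mem_coe.1 hc) (mem_coe.1 hd'')
  have huniq : ∀ {x y : W} {z : V}, z ∈ B x → z ∈ B y → x = y := by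
    intro x y z h2 h3
    by_contra hne
    exact Finset.disjoint_left.1 (hd x y hne) h2 h3
  let cr : P → Sym2 V := fun p => s(u p, v p)
  have hcrinj : Function.Injective cr := by
    intro p q hpq
    apply hinj
    have h4 : s(u p, v p) = s(u q, v q) := hpq
    rw [Sym2.eq_iff] at h4
    rcases h4 with ⟨h5, h6⟩ | ⟨h5, h6⟩
    · left
      refine ⟨huniq (hu p) (h5 ▸ hu q), huniq (hv p) (h6 ▸ hv q)⟩
    · right
      refine ⟨huniq (hu p) (h5 ▸ hv q), huniq (hv p) (h6 ▸ hu q)⟩
  have hcrd : Disjoint (univ.biUnion E) (univ.image cr) := by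
    rw [Finset.disjoint_left]
    intro e h2 h3
    rw [mem_biUnion] at h2
    rw [mem_image] at h3
    obtain ⟨x, -, h2⟩ := h2
    obtain ⟨p, -, rfl⟩ := h3
    obtain ⟨c, hc, d, hd', h4, -⟩ := hE1 x _ h2
    have h4' : s(u p, v p) = s(c, d) := h4
    rw [Sym2.eq_iff] at h4'
    rw [mem_coe] at hc hd'
    apply hab p
    rcases h4' with ⟨h5, h6⟩ | ⟨h5, h6⟩
    · exact (huniq (hu p) (h5 ▸ hc)).trans (huniq (hv p) (h6 ▸ hd')).symm
    · exact (huniq (hu p) (h5 ▸ hd')).trans (huniq (hv p) (h6 ▸ hc)).symm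
  refine ⟨univ.biUnion E ∪ univ.image cr, ?_, ?_⟩
  · intro e he
    rw [mem_union] at he
    rcases he with he | he
    · rw [mem_biUnion] at he
      obtain ⟨x, -, he⟩ := he
      obtain ⟨c, hc, d, hd', h4, h5⟩ := hE1 x e he
      exact ⟨c, mem_biUnion.2 ⟨x, mem_univ _, hc⟩, d, mem_biUnion.2 ⟨x, mem_univ _, hd'⟩, h4, h5⟩
    · rw [mem_image] at he
      obtain ⟨p, -, rfl⟩ := he
      exact ⟨u p, mem_biUnion.2 ⟨_, mem_univ _, hu p⟩, v p, mem_biUnion.2 ⟨_, mem_univ _, hv p⟩,
        rfl, huv p⟩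
  · rw [card_union_of_disjoint hcrd, card_image_of_injective _ hcrinj,
      card_biUnion (fun x _ y _ hxy => hEd x y hxy), card_univ, hcard]
    have h5 : ∑ x, (B x).card ≤ ∑ x : W, ((E x).card + 1) := by
      apply sum_le_sum
      intro x _
      have := hE2 x
      rwa [Set.ncard_coe_finset] at this
    rw [sum_add_distrib, sum_const, card_univ, smul_eq_mul, mul_one] at h5
    omega

end Pool.Agent.TH507.Host
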