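import Mathlib
import Pool.Agent.TH507.Host

/-!
The graph `s K_{2,m}` plus isolated vertices: it is planar, has at most `s` disjoint cycles, and it
is not a minor of a suitable graph of treewidth of order `s m log s`.
-/

set_option autoImplicit false

namespace Pool.Agent.TH507.Host

open Finset

/-- the disjoint union of `s` copies of `K_{2,m}` and `n - s (m + 2)` isolated vertices: the vertex
`x` lies in the block number `x / (m + 2)`, the first two vertices of a block are its hubs, and in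
each of the first `s` blocks the hubs are adjacent to the other vertices -/
def copies (s m n : ℕ) : SimpleGraph (Fin n) where
  Adj x y := x.1 / (m + 2) < s ∧ x.1 / (m + 2) = y.1 / (m + 2) ∧
    (x.1 % (m + 2) < 2 ∧ 2 ≤ y.1 % (m + 2) ∨ y.1 % (m + 2) < 2 ∧ 2 ≤ x.1 % (m + 2))
  symm := ⟨fun _ _ h => ⟨h.2.1 ▸ h.1, h.2.1.symm, h.2.2.symm⟩⟩
  loopless := ⟨fun _ h => by
    rcases h.2.2 with h | h <;> omega⟩

section

variable {s m n : ℕ}

lemma div_eq_of_reachable_aux {x y : Fin n} (p : (copies s m n).Walk x y) :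
    x.1 / (m + 2) = y.1 / (m + 2) := by
  induction p with
  | nil => rfl
  | cons h _ ih => exact h.2.1.trans ih

/-- connected sets lie in one block -/
lemma div_eq_of_connected {B : Set (Fin n)} (hB : ((copies s m n).induce B).Connected)
    {x y : Fin n} (hx : x ∈ B) (hy : y ∈ B) : x.1 / (m + 2) = y.1 / (m + 2) := by
  obtain ⟨p⟩ := hB.preconnected ⟨x, hx⟩ ⟨y, hy⟩
  exact div_eq_of_reachable_aux (p.map (SimpleGraph.Embedding.induce B).toHom)

/-- of three hubs in one block two are equal -/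
lemma hubs {x y z : Fin n} (hxy : x.1 / (m + 2) = y.1 / (m + 2))
    (hxz : x.1 / (m + 2) = z.1 / (m + 2)) (hx : x.1 % (m + 2) < 2) (hy : y.1 % (m + 2) < 2)
    (hz : z.1 % (m + 2) < 2) : x = y ∨ x = z ∨ y = z := by
  have h1 := Nat.div_add_mod x.1 (m + 2)
  have h2 := Nat.div_add_mod y.1 (m + 2)
  have h3 := Nat.div_add_mod z.1 (m + 2)
  rw [← hxy] at h2
  rw [← hxz] at h3
  by_contra hcon
  push Not at hcon
  have e1 : x.1 ≠ y.1 := fun h => hcon.1 (Fin.ext h)
  have e2 : x.1 ≠ z.1 := fun h => hcon.2.1 (Fin.ext h)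
  have e3 : y.1 ≠ z.1 := fun h => hcon.2.2 (Fin.ext h)
  omega

/-- three pairwise disjoint branch sets in one block: one of them has no hub -/
lemma no_three {ι : Type} {B : ι → Set (Fin n)} {q : ℕ}
    (hq : ∀ i, ∀ x ∈ B i, x.1 / (m + 2) = q)
    (hd : ∀ i j, i ≠ j → Disjoint (B i) (B j)) {i j k : ι} (hij : i ≠ j) (hik : i ≠ k)
    (hjk : j ≠ k) (hi : ∃ x ∈ B i, x.1 % (m + 2) < 2) (hj : ∃ x ∈ B j, x.1 % (m + 2) < 2)
    (hk : ∃ x ∈ B k, x.1 % (m + 2) < 2) : False := by
  obtain ⟨x, hx, hx2⟩ := hi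
  obtain ⟨y, hy, hy2⟩ := hj
  obtain ⟨z, hz, hz2⟩ := hk
  have e1 := hq i x hx
  have e2 := hq j y hy
  have e3 := hq k z hz
  rcases hubs (e1.trans e2.symm) (e1.trans e3.symm) hx2 hy2 hz2 with h | h | h
  · subst h
    exact Set.disjoint_left.1 (hd i j hij) hx hy
  · subst h
    exact Set.disjoint_left.1 (hd i k hik) hx hz
  · subst h
    exact Set.disjoint_left.1 (hd j k hjk) hy hz

/-- the copies form a planar graph -/
theorem copies_planar : Planar (copies s m n) := by
  constructor
  · rintro ⟨B, h1, h2, h3⟩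
    obtain ⟨⟨x0, hx0⟩⟩ := (h1 0).nonempty
    have hadj : ∀ i j : Fin 5, i ≠ j → ∃ u ∈ B i, ∃ v ∈ B j, (copies s m n).Adj u v :=
      fun i j hij => h3 i j hij
    have hq : ∀ i, ∀ x ∈ B i, x.1 / (m + 2) = x0.1 / (m + 2) := by
      intro i x hx
      by_cases hi : i = 0
      · subst hi
        exact div_eq_of_connected (h1 0) hx hx0
      · obtain ⟨u, hu, v, hv, huv⟩ := hadj i 0 hi
        exact (div_eq_of_connected (h1 i) hx hu).trans
          (huv.2.1.trans (div_eq_of_connected (h1 0) hv hx0))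
    have hhub : ∀ i j : Fin 5, i ≠ j → (∃ x ∈ B i, x.1 % (m + 2) < 2) ∨
        ∃ x ∈ B j, x.1 % (m + 2) < 2 := by
      intro i j hij
      obtain ⟨u, hu, v, hv, huv⟩ := hadj i j hij
      rcases huv.2.2 with h | h
      · exact Or.inl ⟨u, hu, h.1⟩
      · exact Or.inr ⟨v, hv, h.1⟩
    have key := fun (i j k : Fin 5) (hij : i ≠ j) (hik : i ≠ k) (hjk : j ≠ k) =>
      no_three hq h2 hij hik hjk
    have a01 := hhub 0 1 (by decide)
    have a02 := hhub 0 2 (by decide)
    have a12 := hhub 1 2 (by decide)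
    have a34 := hhub 3 4 (by decide)
    rcases a34 with a | a
    · rcases a01 with c | c
      · rcases a12 with e | e
        · exact key 0 1 3 (by decide) (by decide) (by decide) c e a
        · exact key 0 2 3 (by decide) (by decide) (by decide) c e a
      · rcases a02 with e | e
        · exact key 0 1 3 (by decide) (by decide) (by decide) e c a
        · exact key 1 2 3 (by decide) (by decide) (by decide) c e a
    · rcases a01 with c | c
      · rcases a12 with e | e
        · exact key 0 1 4 (by decide) (by decide) (by decide) c e a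
        · exact key 0 2 4 (by decide) (by decide) (by decide) c e a
      · rcases a02 with e | e
        · exact key 0 1 4 (by decide) (by decide) (by decide) e c a
        · exact key 1 2 4 (by decide) (by decide) (by decide) c e a
  · rintro ⟨B, h1, h2, h3⟩
    obtain ⟨⟨x0, hx0⟩⟩ := (h1 (Sum.inl 0)).nonempty
    have hadj : ∀ i j : Fin 3, ∃ u ∈ B (Sum.inl i), ∃ v ∈ B (Sum.inr j),
        (copies s m n).Adj u v := fun i j => h3 _ _ (by simp)
    have hqr : ∀ j, ∀ x ∈ B (Sum.inr j), x.1 / (m + 2) = x0.1 / (m + 2) := by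
      intro j x hx
      obtain ⟨u, hu, v, hv, huv⟩ := hadj 0 j
      exact (div_eq_of_connected (h1 _) hx hv).trans
          (huv.2.1.symm.trans (div_eq_of_connected (h1 _) hu hx0))
    have hq : ∀ i, ∀ x ∈ B i, x.1 / (m + 2) = x0.1 / (m + 2) := by
      rintro (i | j) x hx
      · obtain ⟨u, hu, v, hv, huv⟩ := hadj i 0
        exact (div_eq_of_connected (h1 _) hx hu).trans (huv.2.1.trans (hqr 0 v hv))
      · exact hqr j x hx
    have hhub : ∀ i j : Fin 3, (∃ x ∈ B (Sum.inl i), x.1 % (m + 2) < 2) ∨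
        ∃ x ∈ B (Sum.inr j), x.1 % (m + 2) < 2 := by
      intro i j
      obtain ⟨u, hu, v, hv, huv⟩ := hadj i j
      rcases huv.2.2 with h | h
      · exact Or.inl ⟨u, hu, h.1⟩
      · exact Or.inr ⟨v, hv, h.1⟩
    have key := fun (i j k : Fin 3 ⊕ Fin 3) (hij : i ≠ j) (hik : i ≠ k) (hjk : j ≠ k) =>
      no_three hq h2 hij hik hjk
    have a0 := hhub 0 0
    have a1 := hhub 1 1
    have a2 := hhub 2 2
    rcases a0 with a | a <;> rcases a1 with c | c <;> rcases a2 with e | e <;>
      exact key _ _ _ (by simp) (by simp) (by simp) a c e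

/-- every cycle has a non-hub vertex whose two neighbours on the cycle are the two hubs of the
block -/
lemma cycle_hubs {x : Fin n} (C : (copies s m n).Walk x x) (hC : C.IsCycle) :
    ∃ u v : Fin n, u ≠ v ∧ u ∈ C.support ∧ v ∈ C.support ∧ u.1 % (m + 2) < 2 ∧
      v.1 % (m + 2) < 2 ∧ u.1 / (m + 2) = v.1 / (m + 2) ∧ u.1 / (m + 2) < s := by
  -- first a cycle starting at a non-hub
  have key : ∀ {y : Fin n} (D : (copies s m n).Walk y y), D.IsCycle → 2 ≤ y.1 % (m + 2) →
      ∃ u v : Fin n, u ≠ v ∧ u ∈ D.support ∧ v ∈ D.support ∧ u.1 % (m + 2) < 2 ∧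
      v.1 % (m + 2) < 2 ∧ u.1 / (m + 2) = v.1 / (m + 2) ∧ u.1 / (m + 2) < s := by
    intro y D hD hy
    have hn : ¬ D.Nil := hD.not_nil
    have h1 := D.adj_snd hn
    have h2 := D.adj_penultimate hn
    refine ⟨D.snd, D.penultimate, hD.snd_ne_penultimate, ?_, ?_, ?_, ?_, ?_, ?_⟩
    · exact D.getVert_mem_support 1
    · exact D.getVert_mem_support _
    · rcases h1.2.2 with h | h
      · omega
      · exact h.1
    · rcases h2.2.2 with h | h
      · exact h.1
      · omega
    · exact h1.2.1.symm.trans h2.2.1.symm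
    · exact h1.2.1 ▸ h1.1
  by_cases hx : 2 ≤ x.1 % (m + 2)
  · exact key C hC hx
  · have hn : ¬ C.Nil := hC.not_nil
    have h1 := C.adj_snd hn
    have hy : 2 ≤ C.snd.1 % (m + 2) := by
      rcases h1.2.2 with h | h
      · exact h.2
      · omega
    have hmem : C.snd ∈ C.support := C.getVert_mem_support 1
    obtain ⟨u, v, h2, h3, h4, h5⟩ := key (C.rotate C.snd hmem) (hC.rotate hmem) hy
    refine ⟨u, v, h2, ?_, ?_, h5⟩
    · exact (SimpleGraph.Walk.mem_support_rotate_iff C C.snd hmem).1 h3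
    · exact (SimpleGraph.Walk.mem_support_rotate_iff C C.snd hmem).1 h4

/-- at most `s` disjoint cycles -/
theorem nu_copies : nu (copies s m n) ≤ s := by
  have hne : {k | HasDisjointCycles (copies s m n) k}.Nonempty :=
    ⟨0, fun i => i.elim0, fun i => i.elim0, fun i => i.elim0, fun i => i.elim0⟩
  apply csSup_le hne
  rintro k ⟨b, C, hC, hd⟩
  have h := fun i => cycle_hubs (C i) (hC i)
  choose u v huv hu hv hu2 hv2 hdiv hs using h
  have hinj : Function.Injective (fun i : Fin k => (⟨(u i).1 / (m + 2), hs i⟩ : Fin s)) := by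
    intro i j hij
    by_contra hne
    have h1 : (u i).1 / (m + 2) = (u j).1 / (m + 2) := congrArg Fin.val hij
    have e1 := hd i j hne
    rcases hubs (hdiv i) h1 (hu2 i) (hv2 i) (hu2 j) with h | h | h
    · exact huv i h
    · exact e1 _ (hu i) (h ▸ hu j)
    · rcases hubs (hdiv i) (h1.trans (hdiv j)) (hu2 i) (hv2 i) (hv2 j) with h' | h' | h'
      · exact huv i h'
      · exact e1 _ (hu i) (h' ▸ hv j)
      · exact huv j (h.symm.trans h')
  have := Fintype.card_le_of_injective _ hinj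
  simpa using this

/-- the vertex number `w` of the block `a` -/
def vx (hn : s * (m + 2) ≤ n) (a : Fin s) (w : Fin (m + 2)) : Fin n :=
  ⟨a.1 * (m + 2) + w.1, by
    have h1 : a.1 + 1 ≤ s := a.2
    have h2 := w.2
    calc a.1 * (m + 2) + w.1 < (a.1 + 1) * (m + 2) := by rw [Nat.succ_mul]; omega
      _ ≤ s * (m + 2) := Nat.mul_le_mul_right _ h1
      _ ≤ n := hn⟩

lemma vx_div (hn : s * (m + 2) ≤ n) (a : Fin s) (w : Fin (m + 2)) :
    (vx hn a w).1 / (m + 2) = a.1 := by
  unfold vx
  simp only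
  rw [Nat.mul_comm, Nat.mul_add_div (by omega), Nat.div_eq_of_lt w.2, add_zero]

lemma vx_mod (hn : s * (m + 2) ≤ n) (a : Fin s) (w : Fin (m + 2)) :
    (vx hn a w).1 % (m + 2) = w.1 := by
  unfold vx
  simp only
  rw [Nat.mul_comm, Nat.mul_add_mod, Nat.mod_eq_of_lt w.2]

lemma vx_inj (hn : s * (m + 2) ≤ n) {a a' : Fin s} {w w' : Fin (m + 2)}
    (h : vx hn a w = vx hn a' w') : a = a' ∧ w = w' := by
  constructor
  · apply Fin.ext
    rw [← vx_div hn a w, h, vx_div]
  · apply Fin.ext
    rw [← vx_mod hn a w, h, vx_mod]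

/-- the host graph has no model of the copies -/
theorem not_minor {t b M : ℕ} (φ : Fin M → Fin (s * t) × Fin (s * t))
    (hφ : ∀ S : Finset (Fin (s * t)), S.Nonempty → S.card ≤ t →
        (univ.filter (fun i => φ i ∈ S ×ˢ S)).card < S.card + b)
    (hs : 1 ≤ s) (hm : m = b + 2) (hn : s * (m + 2) ≤ n) :
    ¬ IsMinor (copies s m n) (gr φ) := by
  classical
  rintro ⟨B, h1, h2, h3⟩
  let B' : Fin s → Fin (m + 2) → Finset (Fin (s * t)) := fun a w => (B (vx hn a w)).toFinset
  have hB' : ∀ a w, ((B' a w : Finset (Fin (s * t))) : Set (Fin (s * t))) = B (vx hn a w) :=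
    fun a w => Set.coe_toFinset _
  have hbig : ∀ a : Fin s, t + 1 ≤ (univ.biUnion (B' a)).card := by
    intro a
    obtain ⟨E, hE1, hE2⟩ := count_model (G := gr φ) (P := Fin 2 × Fin m) (B' a)
      (fun w => by rw [hB']; exact h1 _)
      (fun w w' hww => by
        rw [← Finset.disjoint_coe, hB', hB']
        exact h2 _ _ (fun h => hww (vx_inj hn h).2))
      (fun p => ⟨p.1.1, by omega⟩) (fun p => ⟨2 + p.2.1, by omega⟩)
      (fun p h => by
        rw [Fin.mk.injEq] at h
        have := p.1.2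
        omega)
      (fun p q h => by
        simp only [Fin.mk.injEq] at h
        have e1 := p.1.2
        have e2 := q.1.2
        have e3 : p.1.1 = q.1.1 ∧ p.2.1 = q.2.1 := by omega
        exact Prod.ext (Fin.ext e3.1) (Fin.ext e3.2))
      (fun p => by
        have hadj : (copies s m n).Adj (vx hn a ⟨p.1.1, by omega⟩)
            (vx hn a ⟨2 + p.2.1, by omega⟩) := by
          refine ⟨?_, ?_, Or.inl ⟨?_, ?_⟩⟩
          · rw [vx_div]; exact a.2
          · rw [vx_div, vx_div]
          · rw [vx_mod]; exact p.1.2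
          · rw [vx_mod]; exact Nat.le_add_right _ _
        obtain ⟨u, hu, v, hv, huv⟩ := h3 _ _ hadj
        exact ⟨u, Set.mem_toFinset.2 hu, v, Set.mem_toFinset.2 hv, huv⟩)
    have hE3 := card_edges_le φ (univ.biUnion (B' a)) E hE1
    have hne : (univ.biUnion (B' a)).Nonempty := by
      obtain ⟨⟨x, hx⟩⟩ := (h1 (vx hn a 0)).nonempty
      exact ⟨x, mem_biUnion.2 ⟨0, mem_univ _, Set.mem_toFinset.2 hx⟩⟩
    by_contra hcon
    have hlt := hφ _ hne (by omega)
    rw [Fintype.card_prod, Fintype.card_fin, Fintype.card_fin, Fintype.card_fin] at hE2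
    omega
  have hdis : ∀ a a' : Fin s, a ≠ a' → Disjoint (univ.biUnion (B' a)) (univ.biUnion (B' a')) := by
    intro a a' haa
    rw [Finset.disjoint_left]
    intro x hx hx'
    rw [mem_biUnion] at hx hx'
    obtain ⟨w, -, hw⟩ := hx
    obtain ⟨w', -, hw'⟩ := hx'
    have hne : vx hn a w ≠ vx hn a' w' := fun h => haa (vx_inj hn h).1
    exact Set.disjoint_left.1 (h2 _ _ hne) (Set.mem_toFinset.1 hw) (Set.mem_toFinset.1 hw')
  have hsum : ∑ a : Fin s, (univ.biUnion (B' a)).card ≤ s * t := by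
    rw [← card_biUnion (fun a _ a' _ h => hdis a a' h)]
    refine (card_le_univ _).trans ?_
    rw [Fintype.card_fin]
  have hsum' : s * (t + 1) ≤ ∑ a : Fin s, (univ.biUnion (B' a)).card := by
    calc s * (t + 1) = ∑ _a : Fin s, (t + 1) := by
          rw [sum_const, card_univ, Fintype.card_fin, smul_eq_mul]
      _ ≤ _ := sum_le_sum fun a _ => hbig a
  have : s * (t + 1) = s * t + s := by ring
  omega

end

end Pool.Agent.TH507.Host
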