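import Mathlib
import Pool.Agent.TH507.Copies

/-!
The lower bound: for a fixed `s` and all large `n` some planar graph on `n` vertices with at most
`s` disjoint cycles is not a minor of some graph of treewidth larger than `c n`, where `c` is of
order `log s`.
-/

set_option autoImplicit false

namespace Pool.Agent.TH507.Host

open Finset

lemma exists_twLE {V : Type} [Fintype V] (G : SimpleGraph V) : TwLE G (tw G) := by
  classical
  have h : {w | TwLE G w}.Nonempty := by
    obtain ⟨m, T, bag, h1, h2, h3, h4, h5⟩ := Pool.Agent.W126.Split.td_of_bw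
      (Pool.Agent.W126.Split.bw_card (G := G) Finset.univ)
    exact ⟨_, m, T, bag, h1, h2, h3, h4, fun i => (h5 i).trans (Nat.le_succ _)⟩
  exact Nat.sInf_mem h

lemma two_sq_lt (b : ℕ) (hb : 1 ≤ b) : 2 * b ^ 2 < 4 ^ b := by
  induction b, hb using Nat.le_induction with
  | base => norm_num
  | succ b hb ih =>
    rw [pow_succ 4]
    nlinarith

lemma param {c s b : ℕ} (hs : 176 * 119 ^ (8 * c + 1) ≤ s) (hb : 5 ≤ b) (hbc : 8 * c + 1 ≤ b) :
    2 * (4 * (c * (b + 5) + 1)) * 119 ^ (4 * (c * (b + 5) + 1)) * 44 ^ b < s ^ b := by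
  have ht : 4 * (c * (b + 5) + 1) ≤ (8 * c + 1) * b := by nlinarith
  have h1 : 2 * (4 * (c * (b + 5) + 1)) < 4 ^ b := by
    have h2 := two_sq_lt b (by omega)
    nlinarith
  calc 2 * (4 * (c * (b + 5) + 1)) * 119 ^ (4 * (c * (b + 5) + 1)) * 44 ^ b
      ≤ 2 * (4 * (c * (b + 5) + 1)) * 119 ^ ((8 * c + 1) * b) * 44 ^ b := by
        apply Nat.mul_le_mul_right
        apply Nat.mul_le_mul_left
        exact Nat.pow_le_pow_right (by norm_num) ht
    _ = 2 * (4 * (c * (b + 5) + 1)) * ((119 ^ (8 * c + 1)) ^ b * 44 ^ b) := by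
        rw [pow_mul]; ring
    _ < 4 ^ b * ((119 ^ (8 * c + 1)) ^ b * 44 ^ b) := by
        apply Nat.mul_lt_mul_of_pos_right h1
        positivity
    _ = (176 * 119 ^ (8 * c + 1)) ^ b := by
        rw [mul_pow, show (176 : ℕ) = 4 * 44 by norm_num, mul_pow]
        ring
    _ ≤ s ^ b := Nat.pow_le_pow_left hs b

/-- the main bound -/
theorem exceeds {c s : ℕ} (hs : 176 * 119 ^ (8 * c + 1) ≤ s) :
    ∀ n : ℕ, s * (8 * c + 14) ≤ n → ∃ H : SimpleGraph (Fin n), Planar H ∧ nu H ≤ s ∧
      ∃ (N : ℕ) (G : SimpleGraph (Fin N)), ¬ IsMinor H G ∧ c * n < tw G := by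
  intro n hn
  have hs1 : 1 ≤ s := by
    have : 1 ≤ 176 * 119 ^ (8 * c + 1) := Nat.one_le_iff_ne_zero.2 (by positivity)
    omega
  have hq : 8 * c + 14 ≤ n / s := (Nat.le_div_iff_mul_le hs1).2 (by rw [Nat.mul_comm]; exact hn)
  obtain ⟨b, hb⟩ : ∃ b, n / s = b + 4 := ⟨n / s - 4, by omega⟩
  have hlt : n < s * (b + 5) := by
    have h1 := Nat.div_add_mod n s
    have h2 := Nat.mod_lt n hs1
    rw [hb] at h1
    have h3 : s * (b + 5) = s * (b + 4) + s := by ring
    omega
  have hle : s * (b + 2 + 2) ≤ n := by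
    have h1 := Nat.div_add_mod n s
    rw [hb] at h1
    have h3 : s * (b + 2 + 2) = s * (b + 4) := by ring
    omega
  have hpar := param (b := b) hs (by omega) (by omega)
  set t := 4 * (c * (b + 5) + 1) with ht
  obtain ⟨φ, hφ1, hφ2⟩ := RG.exists_list (b := b) hs1 (by omega : 1 ≤ t) hpar
  refine ⟨copies s (b + 2) n, copies_planar, nu_copies, s * t, gr φ, ?_, ?_⟩
  · exact not_minor φ hφ2 hs1 rfl hle
  · by_contra hcon
    push Not at hcon
    refine not_twLE (G := gr φ) (w := tw (gr φ)) ?_ ?_ (exists_twLE _)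
    · intro A B hd hA hB
      rw [Fintype.card_fin] at hA hB
      obtain ⟨i, hi⟩ := hφ1 A B hd hA hB
      rw [mem_union, mem_product, mem_product] at hi
      rcases hi with hi | hi
      · refine ⟨_, hi.1, _, hi.2, ?_, i, Or.inl rfl⟩
        intro h
        exact Finset.disjoint_left.1 hd hi.1 (h ▸ hi.2)
      · refine ⟨_, hi.2, _, hi.1, ?_, i, Or.inr rfl⟩
        intro h
        exact Finset.disjoint_left.1 hd hi.2 (h ▸ hi.1)
    · rw [Fintype.card_fin]
      have h1 : s * t = 4 * (c * (s * (b + 5)) + s) := by rw [ht]; ring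
      have h2 : c * n ≤ c * (s * (b + 5)) := Nat.mul_le_mul_left _ hlt.le
      omega

/-- the trivial bound: the complete graph on `n - 1` vertices -/
theorem exceeds_trivial (n : ℕ) (hn : 1 ≤ n) : ∃ H : SimpleGraph (Fin n), Planar H ∧ nu H ≤ 0 ∧
      ∃ (N : ℕ) (G : SimpleGraph (Fin N)), ¬ IsMinor H G ∧ n < 4 * (tw G + 1) + 1 := by
  classical
  refine ⟨copies 0 0 n, copies_planar, nu_copies, n - 1, ⊤, ?_, ?_⟩
  · rintro ⟨B, h1, h2, -⟩
    have h := fun x => (h1 x).nonempty
    have hne : ∀ x, ∃ v, v ∈ B x := fun x => by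
      obtain ⟨⟨v, hv⟩⟩ := h x
      exact ⟨v, hv⟩
    choose f hf using hne
    have hinj : Function.Injective f := by
      intro i j hij
      by_contra hne
      have h3 := hf i
      rw [hij] at h3
      exact Set.disjoint_left.1 (h2 i j hne) h3 (hf j)
    have := Fintype.card_le_of_injective f hinj
    rw [Fintype.card_fin, Fintype.card_fin] at this
    omega
  · by_contra hcon
    push Not at hcon
    by_cases hn1 : n = 1
    · omega
    · refine not_twLE (G := (⊤ : SimpleGraph (Fin (n - 1)))) (w := tw (⊤ : SimpleGraph (Fin (n - 1))))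
        ?_ ?_ (exists_twLE _)
      · intro A B hd hA hB
        rw [Fintype.card_fin] at hA hB
        obtain ⟨u, hu⟩ : A.Nonempty := card_pos.1 (by omega)
        obtain ⟨v, hv⟩ : B.Nonempty := card_pos.1 (by omega)
        refine ⟨u, hu, v, hv, ?_⟩
        rw [SimpleGraph.top_adj]
        rintro rfl
        exact Finset.disjoint_left.1 hd hu hv
      · rw [Fintype.card_fin]
        omega

end Pool.Agent.TH507.Host
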