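import Mathlib
import Pool.Agent.H340R2.LW

/-!
# Degrees of the relations between a transcendental number and powers of another one
-/

set_option autoImplicit false

namespace Pool.Agent.TH507.ExpE

open Complex IntermediateField Polynomial

/-- the field of the algebraic numbers -/
noncomputable abbrev K : IntermediateField ℚ ℂ := algebraicClosure ℚ ℂ

theorem mem_K {a : ℂ} : a ∈ K ↔ IsAlgebraic ℚ a := mem_algebraicClosure_iff

/-- Lindemann-Weierstrass: algebraic independence over the algebraic numbers. -/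
theorem lw_algInd {ι : Type} [Fintype ι] (α : ι → ℂ) (hα : ∀ i, IsAlgebraic ℚ (α i))
    (hli : LinearIndependent ℚ α) : AlgebraicIndependent K (fun i => Complex.exp (α i)) := by
  classical
  rw [algebraicIndependent_iff]
  intro p hp
  rw [MvPolynomial.aeval_def, MvPolynomial.eval₂_eq'] at hp
  have h := Pool.Agent.H340R2.LW.lindemann_weierstrass p.support
    (fun d => ∑ i, (d i : ℂ) * α i) (fun d => ((p.coeff d : K) : ℂ))
    (fun d _ => (IsIntegral.sum _ fun i _ =>
      ((isAlgebraic_natCast (R := ℚ) (A := ℂ) (d i)).mul (hα i)).isIntegral).isAlgebraic)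
    (fun d _ => mem_K.1 (p.coeff d).2)
    (fun d _ d' _ hdd => by
      rw [Fintype.linearIndependent_iff] at hli
      have h1 := hli (fun i => (d i : ℚ) - (d' i : ℚ)) (by
        simp only at hdd
        simp only [Rat.smul_def]
        push_cast
        simp only [sub_mul, Finset.sum_sub_distrib]
        rw [hdd, sub_self])
      ext i
      have h2 := h1 i
      rw [sub_eq_zero] at h2
      exact_mod_cast h2)
    (by
      rw [← hp]
      refine Finset.sum_congr rfl fun d _ => ?_
      rw [Complex.exp_sum]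
      congr 1
      refine Finset.prod_congr rfl fun i _ => ?_
      rw [← Complex.exp_nat_mul])
  ext d
  rw [MvPolynomial.coeff_zero]
  by_cases hd : d ∈ p.support
  · rw [h d hd]; rfl
  · rw [MvPolynomial.notMem_support_iff.1 hd]

/-- A number which is transcendental over `ℚ` is transcendental over the algebraic numbers. -/
theorem trans_K {t : ℂ} (ht : Transcendental ℚ t) : Transcendental K t := by
  intro h
  apply ht
  have h1 : t ∈ algebraicClosure K ℂ := mem_algebraicClosure_iff.2 h
  rw [algebraicClosure.algebraicClosure_eq_bot, IntermediateField.mem_bot] at h1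
  obtain ⟨x, hx⟩ := h1
  rw [← hx]
  exact mem_K.1 x.2

/-- The degree of `K(z)` over `K(z ^ q)` is `q`. -/
theorem relfinrank_pow {z : ℂ} (hz : Transcendental K z) (q : ℕ) :
    relfinrank K⟮z ^ q⟯ K⟮z⟯ = q := by
  set f : RatFunc K →ₐ[K] ℂ :=
    (K⟮z⟯.val).comp (RatFunc.algEquivOfTranscendental z hz).toAlgHom with hf
  have hX : f (RatFunc.X) = z := by
    rw [hf]
    simp
  have h1 : (⊤ : IntermediateField K (RatFunc K)).map f = K⟮z⟯ := by
    rw [← RatFunc.adjoin_X, IntermediateField.adjoin_map, Set.image_singleton, hX]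
  have h2 : (K⟮(RatFunc.X ^ q : RatFunc K)⟯).map f = K⟮z ^ q⟯ := by
    rw [IntermediateField.adjoin_map, Set.image_singleton, map_pow, hX]
  rw [← h1, ← h2, relfinrank_map_map, relfinrank_top_right, RatFunc.finrank_eq_max_natDegree]
  have h3 : (RatFunc.X ^ q : RatFunc K) = algebraMap (Polynomial K) (RatFunc K) (Polynomial.X ^ q) := by
    simp
  rw [h3, RatFunc.num_algebraMap, RatFunc.denom_algebraMap]
  simp

/-- degree of the relation in `x` : `[K(x, y) : K(y)]` -/
noncomputable def dg (x y : ℂ) : ℕ := relfinrank K⟮y⟯ (K⟮x⟯ ⊔ K⟮y⟯)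

theorem ratio_pow {t z : ℂ} (hz : Transcendental K z) (q : ℕ) :
    dg t (z ^ q) * dg z t = q * dg t z * dg (z ^ q) t := by
  unfold dg
  set L := K⟮t⟯ ⊔ K⟮z⟯ with hL
  set M := K⟮t⟯ ⊔ K⟮z ^ q⟯ with hM
  have hqz : K⟮z ^ q⟯ ≤ K⟮z⟯ := by
    rw [adjoin_simple_le_iff]
    exact pow_mem (mem_adjoin_simple_self K z) q
  have hML : M ≤ L := sup_le_sup_left hqz _
  have e1 : relfinrank K⟮z ^ q⟯ L = q * relfinrank K⟮z⟯ L := by
    rw [← relfinrank_mul_relfinrank hqz le_sup_right, relfinrank_pow hz q]
  have e2 : relfinrank K⟮z ^ q⟯ L = relfinrank K⟮z ^ q⟯ M * relfinrank M L :=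
    (relfinrank_mul_relfinrank le_sup_right hML).symm
  have e3 : relfinrank K⟮t⟯ L = relfinrank K⟮t⟯ M * relfinrank M L :=
    (relfinrank_mul_relfinrank le_sup_left hML).symm
  rw [sup_comm K⟮z⟯ K⟮t⟯, sup_comm K⟮z ^ q⟯ K⟮t⟯, ← hL, ← hM]
  rw [e3, ← e1, e2]
  ring

end Pool.Agent.TH507.ExpE
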