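import Mathlib
import Pool.Agent.TH507.ExpA

/-!
# Relations of bounded bidegree
-/

set_option autoImplicit false

namespace Pool.Agent.TH507.ExpE

open Complex IntermediateField Polynomial Finset

/-- `x` and `y` satisfy a nonzero polynomial relation with algebraic coefficients, of degree at
most `m` in `x` and at most `n` in `y`. -/
def Related (m n : ℕ) (x y : ℂ) : Prop :=
  ∃ c : ℕ → ℕ → ℂ, (∀ i j, IsAlgebraic ℚ (c i j)) ∧ (∃ i ≤ m, ∃ j ≤ n, c i j ≠ 0) ∧
    ∑ i ∈ range (m + 1), ∑ j ∈ range (n + 1), c i j * x ^ i * y ^ j = 0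

theorem Related.symm {m n : ℕ} {x y : ℂ} (h : Related m n x y) : Related n m y x := by
  obtain ⟨c, h1, ⟨i, hi, j, hj, hne⟩, h3⟩ := h
  refine ⟨fun a b => c b a, fun a b => h1 b a, ⟨j, hj, i, hi, hne⟩, ?_⟩
  rw [Finset.sum_comm]
  rw [← h3]
  refine Finset.sum_congr rfl fun a _ => Finset.sum_congr rfl fun b _ => ?_
  ring

theorem dg_eq (x y : ℂ) : dg x y = Module.finrank K⟮y⟯ K⟮y⟯⟮x⟯ := by
  unfold dg
  rw [relfinrank_eq_finrank_of_le le_sup_right]
  have h : ∀ (h : K⟮y⟯ ≤ K⟮x⟯ ⊔ K⟮y⟯), extendScalars h = K⟮y⟯⟮x⟯ := by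
    intro h
    apply restrictScalars_injective K
    rw [extendScalars_restrictScalars, restrictScalars_adjoin_eq_sup, sup_comm]
  rw [h le_sup_right]

theorem coeff_ne {y : ℂ} (hy : Transcendental K y) {n : ℕ} (c : ℕ → ℂ)
    (hc : ∀ j, IsAlgebraic ℚ (c j)) {j : ℕ} (hj : j ≤ n) (hne : c j ≠ 0) :
    ∑ j ∈ range (n + 1), c j * y ^ j ≠ 0 := by
  intro h
  apply hy
  refine ⟨∑ j ∈ range (n + 1), Polynomial.C (⟨c j, mem_K.2 (hc j)⟩ : K) * X ^ j, ?_, ?_⟩
  · intro h0
    have h1 := congrArg (fun p => Polynomial.coeff p j) h0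
    simp only [finset_sum_coeff, coeff_C_mul, coeff_X_pow, mul_ite, mul_one, mul_zero,
      Finset.sum_ite_eq, Finset.mem_range, coeff_zero] at h1
    rw [if_pos (by omega)] at h1
    exact hne (congrArg Subtype.val h1)
  · rw [map_sum, ← h]
    refine Finset.sum_congr rfl fun j _ => ?_
    rw [map_mul, aeval_C, map_pow, aeval_X]
    rfl

theorem dg_bounds {x y : ℂ} (hy : Transcendental K y) {m n : ℕ} (h : Related m n x y) :
    IsAlgebraic K⟮y⟯ x ∧ 0 < dg x y ∧ dg x y ≤ m := by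
  obtain ⟨c, h1, ⟨i, hi, j, hj, hne⟩, h3⟩ := h
  have hyK : y ∈ K⟮y⟯ := mem_adjoin_simple_self K y
  have hs : ∀ i, ∑ j ∈ range (n + 1), c i j * y ^ j ∈ K⟮y⟯ := by
    intro i
    refine sum_mem fun j _ => mul_mem ?_ (pow_mem hyK j)
    exact IntermediateField.algebraMap_mem K⟮y⟯ (⟨c i j, mem_K.2 (h1 i j)⟩ : K)
  set P : Polynomial K⟮y⟯ := ∑ i ∈ range (m + 1),
    Polynomial.C (⟨∑ j ∈ range (n + 1), c i j * y ^ j, hs i⟩ : K⟮y⟯) * X ^ i with hP
  have hP0 : P ≠ 0 := by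
    intro h0
    have h4 := congrArg (fun p => Polynomial.coeff p i) h0
    simp only [hP, finset_sum_coeff, coeff_C_mul, coeff_X_pow, mul_ite, mul_one, mul_zero,
      Finset.sum_ite_eq, Finset.mem_range, coeff_zero] at h4
    rw [if_pos (by omega)] at h4
    exact coeff_ne hy (c i) (h1 i) hj hne (congrArg Subtype.val h4)
  have hPdeg : P.natDegree ≤ m := by
    rw [hP]
    refine Polynomial.natDegree_sum_le_of_forall_le _ _ fun i hi => ?_
    refine (Polynomial.natDegree_C_mul_X_pow_le _ _).trans ?_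
    have := Finset.mem_range.1 hi
    omega
  have hPx : aeval x P = 0 := by
    rw [hP, map_sum, ← h3]
    refine Finset.sum_congr rfl fun i _ => ?_
    rw [map_mul, aeval_C, map_pow, aeval_X]
    change (∑ j ∈ range (n + 1), c i j * y ^ j) * x ^ i = _
    rw [Finset.sum_mul]
    refine Finset.sum_congr rfl fun j _ => ?_
    ring
  have halg : IsAlgebraic K⟮y⟯ x := ⟨P, hP0, hPx⟩
  have e : dg x y = (minpoly K⟮y⟯ x).natDegree := by
    rw [dg_eq, adjoin.finrank halg.isIntegral]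
  refine ⟨halg, ?_, ?_⟩
  · rw [e]; exact minpoly.natDegree_pos halg.isIntegral
  · rw [e]
    exact (Polynomial.natDegree_le_natDegree (minpoly.degree_le_of_ne_zero _ _ hP0 hPx)).trans hPdeg

/-- transitivity of algebraic dependence -/
theorem alg_trans {x y z : ℂ} (h1 : IsAlgebraic K⟮y⟯ x) (h2 : IsAlgebraic K⟮z⟯ y) :
    IsAlgebraic K⟮z⟯ x := by
  set L := algebraicClosure K⟮z⟯ ℂ with hL
  have hy : y ∈ L.restrictScalars K := mem_algebraicClosure_iff.2 h2
  have hle : K⟮y⟯ ≤ L.restrictScalars K := adjoin_simple_le_iff.2 hy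
  have h3 : IsAlgebraic (L.restrictScalars K) x := by
    obtain ⟨p, hp0, hp⟩ := h1
    refine ⟨p.map (IntermediateField.inclusion hle).toRingHom, ?_, ?_⟩
    · rwa [Ne, Polynomial.map_eq_zero]
    · rw [Polynomial.aeval_def, Polynomial.eval₂_map]
      rw [Polynomial.aeval_def] at hp
      exact hp
  have h4 : IsAlgebraic L x := h3
  have h5 : x ∈ algebraicClosure L ℂ := mem_algebraicClosure_iff.2 h4
  rw [hL, algebraicClosure.algebraicClosure_eq_bot, IntermediateField.mem_bot] at h5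
  obtain ⟨w, hw⟩ := h5
  rw [← hw]
  exact mem_algebraicClosure_iff.1 w.2

end Pool.Agent.TH507.ExpE
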