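import Mathlib
import Pool.Agent.TH507.ExpB

/-!
# The exceptional exponents of a transcendental number
-/

set_option autoImplicit false

namespace Pool.Agent.TH507.ExpE

open Complex IntermediateField Polynomial Finset

/-- The exponents `α` for which `t` and `e ^ α` are related in bidegree `(m, n)`. -/
def Exc (m n : ℕ) (t : ℂ) : Set ℂ :=
  {α | α ≠ 0 ∧ IsAlgebraic ℚ α ∧ Related m n t (Complex.exp α)}

open scoped IntermediateField.algebraAdjoinAdjoin in
theorem isAlgebraic_adjoin_iff (y x : ℂ) : IsAlgebraic K⟮y⟯ x ↔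
    IsAlgebraic (Algebra.adjoin K {y}) x :=
  (IsFractionRing.isAlgebraic_iff (Algebra.adjoin K {y}) K⟮y⟯ ℂ).symm

theorem not_alg_of_indep {α β : ℂ} (hα : IsAlgebraic ℚ α) (hβ : IsAlgebraic ℚ β)
    (hli : LinearIndependent ℚ ![α, β]) : ¬ IsAlgebraic K⟮Complex.exp α⟯ (Complex.exp β) := by
  have h1 : AlgebraicIndependent K (fun i => Complex.exp (![α, β] i)) :=
    lw_algInd ![α, β] (by intro i; fin_cases i <;> assumption) hli
  rw [AlgebraicIndependent.iff_transcendental_adjoin_image (1 : Fin 2)] at h1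
  have h2 := h1.2
  have h3 : ((fun i => Complex.exp (![α, β] i)) '' ({1}ᶜ : Set (Fin 2))) = {Complex.exp α} := by
    ext z
    simp only [Set.mem_image, Set.mem_compl_iff, Set.mem_singleton_iff]
    constructor
    · rintro ⟨i, hi, rfl⟩
      have : i = 0 := by
        fin_cases i
        · rfl
        · exact absurd rfl hi
      rw [this]; rfl
    · rintro rfl
      exact ⟨0, by decide, rfl⟩
  rw [h3] at h2
  rw [isAlgebraic_adjoin_iff]
  exact h2

/-- Two exceptional exponents are rational multiples of each other. -/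
theorem ratio_of_alg {t α β : ℂ} (hα : IsAlgebraic ℚ α) (hβ : IsAlgebraic ℚ β) (hα0 : α ≠ 0)
    (h1 : IsAlgebraic K⟮Complex.exp α⟯ t) (h2 : IsAlgebraic K⟮t⟯ (Complex.exp β)) :
    ∃ r : ℚ, β = r * α := by
  by_contra hcon
  push Not at hcon
  apply not_alg_of_indep hα hβ _ (alg_trans h2 h1)
  rw [LinearIndependent.pair_iff]
  intro s u h
  rw [Rat.smul_def, Rat.smul_def] at h
  have hu : u = 0 := by
    by_contra hu
    apply hcon (-s / u)
    push_cast
    have hu' : (u : ℂ) ≠ 0 := by exact_mod_cast hu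
    field_simp
    linear_combination h
  refine ⟨?_, hu⟩
  rw [hu] at h
  simp only [Rat.cast_zero, zero_mul, add_zero, mul_eq_zero, hα0, or_false] at h
  exact_mod_cast h

theorem dg_pos {x y : ℂ} (h : IsAlgebraic K⟮y⟯ x) : 0 < dg x y := by
  rw [dg_eq, adjoin.finrank h.isIntegral]
  exact minpoly.natDegree_pos h.isIntegral

theorem adjoin_inv (y : ℂ) : K⟮y⁻¹⟯ = K⟮y⟯ := by
  apply le_antisymm
  · rw [adjoin_simple_le_iff]; exact inv_mem (mem_adjoin_simple_self K y)
  · rw [adjoin_simple_le_iff]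
    have := inv_mem (mem_adjoin_simple_self K y⁻¹)
    rwa [inv_inv] at this

theorem dg_inv_right (x y : ℂ) : dg x y⁻¹ = dg x y := by
  unfold dg; rw [adjoin_inv]

theorem dg_inv_left (x y : ℂ) : dg x⁻¹ y = dg x y := by
  unfold dg; rw [adjoin_inv]

theorem exp_trans {α : ℂ} (hα : IsAlgebraic ℚ α) (h0 : α ≠ 0) : Transcendental K (Complex.exp α) :=
  trans_K (Pool.Agent.H340R2.LW.transcendental_cexp α hα h0)

/-- Comparison of the degrees for `α` and `(p / q) α`. -/
theorem compare {t α : ℂ} (hα : IsAlgebraic ℚ α) (hα0 : α ≠ 0)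
    (h1 : IsAlgebraic K⟮Complex.exp α⟯ t) (h2 : IsAlgebraic K⟮t⟯ (Complex.exp α))
    (p q : ℕ) (hq : 0 < q) :
    dg t (Complex.exp ((p : ℂ) / q * α)) * dg (Complex.exp α) t * q =
      dg t (Complex.exp α) * dg (Complex.exp ((p : ℂ) / q * α)) t * p := by
  have hq' : (q : ℂ) ≠ 0 := by exact_mod_cast hq.ne'
  set z := Complex.exp (α / q) with hz
  have e1 : z ^ q = Complex.exp α := by
    rw [hz, ← Complex.exp_nat_mul]; congr 1; field_simp
  have e2 : z ^ p = Complex.exp ((p : ℂ) / q * α) := by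
    rw [hz, ← Complex.exp_nat_mul]; congr 1; field_simp
  have hzt : Transcendental K z := by
    apply exp_trans
    · rw [div_eq_mul_inv]
      exact hα.mul (isAlgebraic_natCast (R := ℚ) (A := ℂ) q).inv
    · exact div_ne_zero hα0 hq'
  have hz1 : IsAlgebraic K⟮t⟯ z := by
    rw [← e1] at h2
    exact h2.of_pow hq
  have hz2 : IsAlgebraic K⟮z⟯ t := by
    apply alg_trans h1
    rw [← e1]
    have : z ^ q ∈ K⟮z⟯ := pow_mem (mem_adjoin_simple_self K z) q
    exact isAlgebraic_algebraMap (⟨z ^ q, this⟩ : K⟮z⟯)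
  have hA := dg_pos hz2
  have hB := dg_pos hz1
  have r1 := ratio_pow (t := t) hzt q
  have r2 := ratio_pow (t := t) hzt p
  rw [← e1, ← e2]
  have hAB : 0 < dg t z * dg z t := Nat.mul_pos hA hB
  apply Nat.eq_of_mul_eq_mul_right hAB
  calc dg t (z ^ p) * dg (z ^ q) t * q * (dg t z * dg z t)
      = (dg t (z ^ p) * dg z t) * (q * dg t z * dg (z ^ q) t) := by ring
    _ = (dg t (z ^ p) * dg z t) * (dg t (z ^ q) * dg z t) := by rw [r1]
    _ = (p * dg t z * dg (z ^ p) t) * (dg t (z ^ q) * dg z t) := by rw [r2]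
    _ = dg t (z ^ q) * dg (z ^ p) t * p * (dg t z * dg z t) := by ring

/-- Exceptional exponents with proportional degrees are equal up to sign. -/
theorem eq_or_neg {t α β : ℂ} (hα : IsAlgebraic ℚ α) (hα0 : α ≠ 0) (hβ0 : β ≠ 0)
    (hβ : IsAlgebraic ℚ β)
    (h1 : IsAlgebraic K⟮Complex.exp α⟯ t) (h2 : IsAlgebraic K⟮t⟯ (Complex.exp α))
    (h3 : IsAlgebraic K⟮Complex.exp β⟯ t) (h4 : IsAlgebraic K⟮t⟯ (Complex.exp β))
    (h : dg t (Complex.exp α) * dg (Complex.exp β) t =
      dg t (Complex.exp β) * dg (Complex.exp α) t) : β = α ∨ β = -α := by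
  obtain ⟨r, hr⟩ := ratio_of_alg hα hβ hα0 h1 h4
  have hr0 : r ≠ 0 := by
    rintro rfl
    apply hβ0
    rw [hr]; simp
  have key := compare hα hα0 h1 h2 r.num.natAbs r.den r.pos
  have hden : (r.den : ℂ) ≠ 0 := by exact_mod_cast r.den_nz
  have hrabs : ((r.num.natAbs : ℂ) / r.den) = ((|r| : ℚ) : ℂ) := by
    have : (|r| : ℚ) = (r.num.natAbs : ℚ) / r.den := by
      rw [Nat.cast_natAbs]
      conv_lhs => rw [← Rat.num_div_den r]
      rw [abs_div, Nat.abs_cast]
      push_cast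
      rfl
    rw [this]; push_cast; rfl
  rw [hrabs] at key
  have hdg : dg t (Complex.exp ((|r| : ℚ) * α)) = dg t (Complex.exp β) ∧
      dg (Complex.exp ((|r| : ℚ) * α)) t = dg (Complex.exp β) t := by
    rcases abs_choice r with hh | hh
    · rw [hh, ← hr]; exact ⟨rfl, rfl⟩
    · rw [hh]
      have : (((-r : ℚ)) : ℂ) * α = -β := by rw [hr]; push_cast; ring
      rw [this, Complex.exp_neg]
      exact ⟨dg_inv_right _ _, dg_inv_left _ _⟩
  rw [hdg.1, hdg.2, h] at key
  have hpos : 0 < dg t (Complex.exp β) * dg (Complex.exp α) t :=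
    Nat.mul_pos (dg_pos h3) (dg_pos h2)
  have hqp : r.den = r.num.natAbs := Nat.eq_of_mul_eq_mul_left hpos key
  have habs : |r| = 1 := by
    have : ((|r| : ℚ) : ℂ) = 1 := by
      rw [← hrabs, ← hqp]
      exact div_self hden
    exact_mod_cast this
  rcases (abs_eq (zero_le_one)).1 habs with h5 | h5
  · left; rw [hr, h5]; simp
  · right; rw [hr, h5]; simp

/-- the pairs of coprime numbers in `[1, m] × [1, n]` -/
def coprimePairs (m n : ℕ) : Finset (ℕ × ℕ) :=
  (Finset.Icc 1 m ×ˢ Finset.Icc 1 n).filter fun p => Nat.Coprime p.1 p.2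

/-- the reduced pair of degrees -/
noncomputable def red (t α : ℂ) : ℕ × ℕ :=
  (dg t (Complex.exp α) / Nat.gcd (dg t (Complex.exp α)) (dg (Complex.exp α) t),
    dg (Complex.exp α) t / Nat.gcd (dg t (Complex.exp α)) (dg (Complex.exp α) t))

theorem red_mem {t α : ℂ} (ht : Transcendental ℚ t) {m n : ℕ} (h : α ∈ Exc m n t) :
    red t α ∈ coprimePairs m n := by
  obtain ⟨h0, h1, h2⟩ := h
  obtain ⟨-, a1, a2⟩ := dg_bounds (exp_trans h1 h0) h2
  obtain ⟨-, b1, b2⟩ := dg_bounds (trans_K ht) h2.symm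
  have hg : 0 < Nat.gcd (dg t (Complex.exp α)) (dg (Complex.exp α) t) := Nat.gcd_pos_of_pos_left _ a1
  unfold red coprimePairs
  rw [Finset.mem_filter, Finset.mem_product, Finset.mem_Icc, Finset.mem_Icc]
  refine ⟨⟨⟨?_, ?_⟩, ⟨?_, ?_⟩⟩, Nat.coprime_div_gcd_div_gcd hg⟩
  · exact Nat.div_pos (Nat.le_of_dvd a1 (Nat.gcd_dvd_left _ _)) hg
  · exact (Nat.div_le_self _ _).trans a2
  · exact Nat.div_pos (Nat.le_of_dvd b1 (Nat.gcd_dvd_right _ _)) hg
  · exact (Nat.div_le_self _ _).trans b2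

theorem eq_of_red {t α β : ℂ} (ht : Transcendental ℚ t) {m n : ℕ} (hα : α ∈ Exc m n t)
    (hβ : β ∈ Exc m n t) (h : red t α = red t β) : β = α ∨ β = -α := by
  obtain ⟨h0, h1, h2⟩ := hα
  obtain ⟨h0', h1', h2'⟩ := hβ
  obtain ⟨a0, a1, a2⟩ := dg_bounds (exp_trans h1 h0) h2
  obtain ⟨b0, b1, b2⟩ := dg_bounds (trans_K ht) h2.symm
  obtain ⟨a0', a1', a2'⟩ := dg_bounds (exp_trans h1' h0') h2'
  obtain ⟨b0', b1', b2'⟩ := dg_bounds (trans_K ht) h2'.symm
  apply eq_or_neg h1 h0 h0' h1' a0 b0 a0' b0'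
  unfold red at h
  rw [Prod.mk.injEq] at h
  set A := dg t (Complex.exp α)
  set B := dg (Complex.exp α) t
  set A' := dg t (Complex.exp β)
  set B' := dg (Complex.exp β) t
  set g := Nat.gcd A B
  set g' := Nat.gcd A' B'
  have e1 : A / g * g = A := Nat.div_mul_cancel (Nat.gcd_dvd_left _ _)
  have e2 : B / g * g = B := Nat.div_mul_cancel (Nat.gcd_dvd_right _ _)
  have e3 : A' / g' * g' = A' := Nat.div_mul_cancel (Nat.gcd_dvd_left _ _)
  have e4 : B' / g' * g' = B' := Nat.div_mul_cancel (Nat.gcd_dvd_right _ _)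
  calc A * B' = (A / g * g) * (B' / g' * g') := by rw [e1, e4]
    _ = (A' / g' * g) * (B / g * g') := by rw [h.1, h.2]
    _ = (A' / g' * g') * (B / g * g) := by ring
    _ = A' * B := by rw [e3, e2]

/-- **Upper bound.** -/
theorem exc_bound {t : ℂ} (ht : Transcendental ℚ t) (m n : ℕ) :
    (Exc m n t).Finite ∧ (Exc m n t).ncard ≤ 2 * (coprimePairs m n).card := by
  classical
  let g : ℕ × ℕ → ℂ := fun s => if h : ∃ α ∈ Exc m n t, red t α = s then h.choose else 0
  have hg : ∀ α ∈ Exc m n t, α = g (red t α) ∨ α = -g (red t α) := by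
    intro α hα
    have h : ∃ β ∈ Exc m n t, red t β = red t α := ⟨α, hα, rfl⟩
    have e : g (red t α) = h.choose := dif_pos h
    rw [e]
    exact eq_of_red ht h.choose_spec.1 hα h.choose_spec.2
  let T : Finset ℂ := (coprimePairs m n).image g ∪ (coprimePairs m n).image (fun s => -g s)
  have hsub : Exc m n t ⊆ T := by
    intro α hα
    have hr := red_mem ht hα
    simp only [T, Finset.coe_union, Finset.coe_image, Set.mem_union, Set.mem_image, Finset.mem_coe]
    rcases hg α hα with h | h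
    · left; exact ⟨_, hr, h.symm⟩
    · right; exact ⟨_, hr, h.symm⟩
  refine ⟨T.finite_toSet.subset hsub, ?_⟩
  calc (Exc m n t).ncard ≤ (T : Set ℂ).ncard := Set.ncard_le_ncard hsub T.finite_toSet
    _ = T.card := Set.ncard_coe_finset T
    _ ≤ ((coprimePairs m n).image g).card + ((coprimePairs m n).image (fun s => -g s)).card :=
      Finset.card_union_le _ _
    _ ≤ (coprimePairs m n).card + (coprimePairs m n).card :=
      Nat.add_le_add Finset.card_image_le Finset.card_image_le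
    _ = 2 * (coprimePairs m n).card := by ring

end Pool.Agent.TH507.ExpE
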