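import Mathlib
import Pool.Agent.TH507.ExpC

/-!
# Sharpness for `t = e`, and real numbers `t`
-/

set_option autoImplicit false

namespace Pool.Agent.TH507.ExpE

open Complex IntermediateField Polynomial Finset

/-- the relation `x ^ a = y ^ b` -/
theorem related_pos {m n a b : ℕ} (ha : a ≤ m) (hb : b ≤ n) (ha0 : 0 < a) {x y : ℂ}
    (h : x ^ a = y ^ b) : Related m n x y := by
  classical
  refine ⟨fun i j => (if i = a ∧ j = 0 then 1 else 0) - (if i = 0 ∧ j = b then 1 else 0), ?_, ?_, ?_⟩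
  · intro i j
    apply IsAlgebraic.sub
    · split_ifs
      · exact isAlgebraic_one
      · exact isAlgebraic_zero
    · split_ifs
      · exact isAlgebraic_one
      · exact isAlgebraic_zero
  · refine ⟨a, ha, 0, Nat.zero_le _, ?_⟩
    beta_reduce
    rw [if_pos ⟨rfl, rfl⟩, if_neg (by rintro ⟨h1, -⟩; omega)]
    norm_num
  · have h1 : ∀ (p q : ℕ), p ≤ m → q ≤ n → ∑ i ∈ range (m + 1), ∑ j ∈ range (n + 1),
        (if i = p ∧ j = q then (1 : ℂ) else 0) * x ^ i * y ^ j = x ^ p * y ^ q := by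
      intro p q hp hq
      rw [Finset.sum_eq_single p, Finset.sum_eq_single q]
      · simp
      · intro j _ hj
        rw [if_neg (by rintro ⟨-, h2⟩; exact hj h2)]; ring
      · intro hh; exact absurd (Finset.mem_range.2 (by omega)) hh
      · intro i _ hi
        apply Finset.sum_eq_zero
        intro j _
        rw [if_neg (by rintro ⟨h2, -⟩; exact hi h2)]; ring
      · intro hh; exact absurd (Finset.mem_range.2 (by omega)) hh
    simp only [sub_mul, Finset.sum_sub_distrib]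
    rw [h1 a 0 ha (Nat.zero_le _), h1 0 b (Nat.zero_le _) hb, h]
    ring

/-- the relation `x ^ a * y ^ b = 1` -/
theorem related_neg {m n a b : ℕ} (ha : a ≤ m) (hb : b ≤ n) (ha0 : 0 < a) {x y : ℂ}
    (h : x ^ a * y ^ b = 1) : Related m n x y := by
  classical
  refine ⟨fun i j => (if i = a ∧ j = b then 1 else 0) - (if i = 0 ∧ j = 0 then 1 else 0), ?_, ?_, ?_⟩
  · intro i j
    apply IsAlgebraic.sub
    · split_ifs
      · exact isAlgebraic_one
      · exact isAlgebraic_zero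
    · split_ifs
      · exact isAlgebraic_one
      · exact isAlgebraic_zero
  · refine ⟨a, ha, b, hb, ?_⟩
    beta_reduce
    rw [if_pos ⟨rfl, rfl⟩, if_neg (by rintro ⟨h1, -⟩; omega)]
    norm_num
  · have h1 : ∀ (p q : ℕ), p ≤ m → q ≤ n → ∑ i ∈ range (m + 1), ∑ j ∈ range (n + 1),
        (if i = p ∧ j = q then (1 : ℂ) else 0) * x ^ i * y ^ j = x ^ p * y ^ q := by
      intro p q hp hq
      rw [Finset.sum_eq_single p, Finset.sum_eq_single q]
      · simp
      · intro j _ hj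
        rw [if_neg (by rintro ⟨-, h2⟩; exact hj h2)]; ring
      · intro hh; exact absurd (Finset.mem_range.2 (by omega)) hh
      · intro i _ hi
        apply Finset.sum_eq_zero
        intro j _
        rw [if_neg (by rintro ⟨h2, -⟩; exact hi h2)]; ring
      · intro hh; exact absurd (Finset.mem_range.2 (by omega)) hh
    simp only [sub_mul, Finset.sum_sub_distrib]
    rw [h1 a b ha hb, h1 0 0 (Nat.zero_le _) (Nat.zero_le _), h]
    ring

theorem mem_coprimePairs {m n : ℕ} {p : ℕ × ℕ} : p ∈ coprimePairs m n ↔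
    ((1 ≤ p.1 ∧ p.1 ≤ m) ∧ (1 ≤ p.2 ∧ p.2 ≤ n)) ∧ Nat.Coprime p.1 p.2 := by
  unfold coprimePairs
  rw [Finset.mem_filter, Finset.mem_product, Finset.mem_Icc, Finset.mem_Icc]

theorem frac_mem {m n : ℕ} {p : ℕ × ℕ} (hp : p ∈ coprimePairs m n) :
    ((p.1 : ℂ) / p.2) ∈ Exc m n (Complex.exp 1) ∧ (-((p.1 : ℂ) / p.2)) ∈ Exc m n (Complex.exp 1) := by
  obtain ⟨⟨⟨h1, h2⟩, h3, h4⟩, -⟩ := mem_coprimePairs.1 hp
  have hb : (p.2 : ℂ) ≠ 0 := by exact_mod_cast (by omega : p.2 ≠ 0)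
  have ha : (p.1 : ℂ) ≠ 0 := by exact_mod_cast (by omega : p.1 ≠ 0)
  have halg : IsAlgebraic ℚ ((p.1 : ℂ) / p.2) := by
    rw [div_eq_mul_inv]
    exact (isAlgebraic_natCast (R := ℚ) (A := ℂ) p.1).mul
      (isAlgebraic_natCast (R := ℚ) (A := ℂ) p.2).inv
  refine ⟨⟨div_ne_zero ha hb, halg, ?_⟩, ⟨neg_ne_zero.2 (div_ne_zero ha hb), halg.neg, ?_⟩⟩
  · apply related_pos h2 h4 h1
    rw [← Complex.exp_nat_mul, ← Complex.exp_nat_mul]
    congr 1
    field_simp
  · apply related_neg h2 h4 h1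
    rw [← Complex.exp_nat_mul, ← Complex.exp_nat_mul, ← Complex.exp_add]
    have : (p.1 : ℂ) * 1 + p.2 * -((p.1 : ℂ) / p.2) = 0 := by field_simp; ring
    rw [this, Complex.exp_zero]

/-- **Sharpness for `t = e`.** -/
theorem exc_e (m n : ℕ) : (Exc m n (Complex.exp 1)).ncard = 2 * (coprimePairs m n).card := by
  classical
  have ht : Transcendental ℚ (Complex.exp 1) :=
    Pool.Agent.H340R2.LW.transcendental_exp_one_complex
  obtain ⟨hfin, hle⟩ := exc_bound ht m n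
  refine le_antisymm hle ?_
  let T : Finset ℂ := (coprimePairs m n).image (fun p => (p.1 : ℂ) / p.2) ∪
    (coprimePairs m n).image (fun p => -((p.1 : ℂ) / p.2))
  have hsub : (T : Set ℂ) ⊆ Exc m n (Complex.exp 1) := by
    intro α hα
    simp only [T, Finset.coe_union, Finset.coe_image, Set.mem_union, Set.mem_image,
      Finset.mem_coe] at hα
    rcases hα with ⟨p, hp, rfl⟩ | ⟨p, hp, rfl⟩
    · exact (frac_mem hp).1
    · exact (frac_mem hp).2
  have hinj : Set.InjOn (fun p : ℕ × ℕ => (p.1 : ℂ) / p.2) (coprimePairs m n) := by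
    intro p hp q hq hpq
    obtain ⟨⟨⟨h1, h2⟩, h3, h4⟩, h5⟩ := mem_coprimePairs.1 hp
    obtain ⟨⟨⟨g1, g2⟩, g3, g4⟩, g5⟩ := mem_coprimePairs.1 hq
    have hb : (p.2 : ℂ) ≠ 0 := by exact_mod_cast (by omega : p.2 ≠ 0)
    have hb' : (q.2 : ℂ) ≠ 0 := by exact_mod_cast (by omega : q.2 ≠ 0)
    simp only at hpq
    rw [div_eq_div_iff hb hb'] at hpq
    have hN : p.1 * q.2 = q.1 * p.2 := by exact_mod_cast hpq
    have d1 : p.1 ∣ q.1 := by
      have : p.1 ∣ q.1 * p.2 := ⟨q.2, hN.symm⟩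
      exact h5.dvd_of_dvd_mul_right this
    have d2 : q.1 ∣ p.1 := by
      have : q.1 ∣ p.1 * q.2 := ⟨p.2, hN⟩
      exact g5.dvd_of_dvd_mul_right this
    have e1 : p.1 = q.1 := Nat.dvd_antisymm d1 d2
    have e2 : p.2 = q.2 := by
      rw [e1] at hN
      exact (Nat.eq_of_mul_eq_mul_left (by omega) hN).symm
    exact Prod.ext e1 e2
  have hdisj : Disjoint ((coprimePairs m n).image (fun p : ℕ × ℕ => (p.1 : ℂ) / p.2))
      ((coprimePairs m n).image (fun p : ℕ × ℕ => -((p.1 : ℂ) / p.2))) := by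
    rw [Finset.disjoint_left]
    intro α h1 h2
    obtain ⟨p, hp, rfl⟩ := Finset.mem_image.1 h1
    obtain ⟨q, hq, hpq⟩ := Finset.mem_image.1 h2
    obtain ⟨⟨⟨h1, h2⟩, h3, h4⟩, h5⟩ := mem_coprimePairs.1 hp
    obtain ⟨⟨⟨g1, g2⟩, g3, g4⟩, g5⟩ := mem_coprimePairs.1 hq
    have hR : -((q.1 : ℝ) / q.2) = (p.1 : ℝ) / p.2 := by
      have := congrArg Complex.re hpq
      have e1 : ((q.1 : ℂ) / q.2) = (((q.1 : ℝ) / q.2 : ℝ) : ℂ) := by push_cast; rfl
      have e2 : ((p.1 : ℂ) / p.2) = (((p.1 : ℝ) / p.2 : ℝ) : ℂ) := by push_cast; rfl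
      rw [e1, e2, Complex.neg_re, Complex.ofReal_re, Complex.ofReal_re] at this
      exact this
    have p1 : (0 : ℝ) < (p.1 : ℝ) / p.2 := by
      apply div_pos <;> exact_mod_cast (by omega)
    have p2 : (0 : ℝ) < (q.1 : ℝ) / q.2 := by
      apply div_pos <;> exact_mod_cast (by omega)
    linarith
  have hcard : T.card = 2 * (coprimePairs m n).card := by
    rw [Finset.card_union_of_disjoint hdisj, Finset.card_image_of_injOn hinj,
      Finset.card_image_of_injOn (fun p hp q hq h => hinj hp hq (neg_injective h))]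
    ring
  calc 2 * (coprimePairs m n).card = T.card := hcard.symm
    _ = (T : Set ℂ).ncard := (Set.ncard_coe_finset T).symm
    _ ≤ (Exc m n (Complex.exp 1)).ncard := Set.ncard_le_ncard hsub hfin

/-- complex conjugation preserves algebraic numbers -/
theorem alg_conj {a : ℂ} (h : IsAlgebraic ℚ a) : IsAlgebraic ℚ (starRingEnd ℂ a) := by
  exact h.algHom (Complex.conjAe.toAlgHom.restrictScalars ℚ)

theorem related_conj {m n : ℕ} {t : ℝ} {y : ℂ} (h : Related m n (t : ℂ) y) :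
    Related m n (t : ℂ) (starRingEnd ℂ y) := by
  obtain ⟨c, h1, ⟨i, hi, j, hj, hne⟩, h3⟩ := h
  refine ⟨fun i j => starRingEnd ℂ (c i j), fun i j => alg_conj (h1 i j),
    ⟨i, hi, j, hj, fun h0 => hne ?_⟩, ?_⟩
  · exact (map_eq_zero (starRingEnd ℂ)).1 h0
  · have h4 := congrArg (starRingEnd ℂ) h3
    rw [map_zero, map_sum] at h4
    rw [← h4]
    refine Finset.sum_congr rfl fun i _ => ?_
    rw [map_sum]
    refine Finset.sum_congr rfl fun j _ => ?_
    rw [map_mul, map_mul, map_pow, map_pow, Complex.conj_ofReal]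

theorem exc_conj {m n : ℕ} {t : ℝ} {α : ℂ} (h : α ∈ Exc m n (t : ℂ)) :
    starRingEnd ℂ α ∈ Exc m n (t : ℂ) := by
  obtain ⟨h0, h1, h2⟩ := h
  refine ⟨fun h => h0 ((map_eq_zero (starRingEnd ℂ)).1 h), alg_conj h1, ?_⟩
  rw [Complex.exp_conj]
  exact related_conj h2

/-- Two exceptional exponents are proportional. -/
theorem exc_line {t : ℂ} (ht : Transcendental ℚ t) {m n m' n' : ℕ} {α β : ℂ}
    (hα : α ∈ Exc m n t) (hβ : β ∈ Exc m' n' t) : ∃ r : ℚ, β = r * α :=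
  ratio_of_alg hα.2.1 hβ.2.1 hα.1 (dg_bounds (exp_trans hα.2.1 hα.1) hα.2.2).1
    (dg_bounds (trans_K ht) hβ.2.2.symm).1

theorem real_or_imag {t : ℝ} (ht : Transcendental ℚ (t : ℂ)) {m n : ℕ} {α : ℂ}
    (hα : α ∈ Exc m n (t : ℂ)) : α.im = 0 ∨ α.re = 0 := by
  obtain ⟨r, hr⟩ := exc_line ht hα (exc_conj hα)
  by_contra hcon
  push Not at hcon
  have h1 := congrArg Complex.re hr
  have h2 := congrArg Complex.im hr
  have e : ((r : ℂ)) = ((r : ℝ) : ℂ) := by push_cast; rfl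
  rw [e, Complex.re_ofReal_mul, Complex.conj_re] at h1
  rw [e, Complex.im_ofReal_mul, Complex.conj_im] at h2
  have h3 : (r : ℝ) = 1 := by
    have : α.re * ((r : ℝ) - 1) = 0 := by linear_combination -h1
    rcases mul_eq_zero.1 this with h | h
    · exact absurd h hcon.2
    · linarith
  rw [h3] at h2
  apply hcon.1
  linarith

/-- `1`, `e ^ α`, `t` are linearly independent over the algebraic numbers. -/
def LinIndep (α t : ℂ) : Prop :=
  ∀ a b c : ℂ, IsAlgebraic ℚ a → IsAlgebraic ℚ b → IsAlgebraic ℚ c →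
    a + b * Complex.exp α + c * t = 0 → a = 0 ∧ b = 0 ∧ c = 0

theorem rep_of_not {α t : ℂ} (hα : IsAlgebraic ℚ α) (h0 : α ≠ 0) (ht : Transcendental ℚ t)
    (h : ¬ LinIndep α t) : ∃ u v : ℂ, IsAlgebraic ℚ u ∧ IsAlgebraic ℚ v ∧ v ≠ 0 ∧
      t = u + v * Complex.exp α := by
  unfold LinIndep at h
  push Not at h
  obtain ⟨a, b, c, ha, hb, hc, h1, h2⟩ := h
  have hexp := Pool.Agent.H340R2.LW.transcendental_cexp α hα h0
  have hc0 : c ≠ 0 := by
    rintro rfl
    rw [zero_mul, add_zero] at h1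
    by_cases hb0 : b = 0
    · subst hb0
      rw [zero_mul, add_zero] at h1
      exact h2 h1 rfl rfl
    · apply hexp
      have : Complex.exp α = -a * b⁻¹ := by
        field_simp
        linear_combination h1
      rw [this]
      exact ha.neg.mul hb.inv
  have hb0 : b ≠ 0 := by
    rintro rfl
    rw [zero_mul, add_zero] at h1
    apply ht
    have : t = -a * c⁻¹ := by
      field_simp
      linear_combination h1
    rw [this]
    exact ha.neg.mul hc.inv
  refine ⟨-a * c⁻¹, -b * c⁻¹, ha.neg.mul hc.inv, hb.neg.mul hc.inv,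
    mul_ne_zero (neg_ne_zero.2 hb0) (inv_ne_zero hc0), ?_⟩
  field_simp
  linear_combination h1

theorem unique_lin {α β t : ℂ} (hα : IsAlgebraic ℚ α) (h0 : α ≠ 0) (hβ : IsAlgebraic ℚ β)
    (h0' : β ≠ 0) (ht : Transcendental ℚ t) (h1 : ¬ LinIndep α t) (h2 : ¬ LinIndep β t) :
    α = β := by
  obtain ⟨u, v, hu, hv, hv0, e1⟩ := rep_of_not hα h0 ht h1
  obtain ⟨u', v', hu', hv', hv0', e2⟩ := rep_of_not hβ h0' ht h2
  by_contra hne
  have h3 := Pool.Agent.H340R2.LW.exp_linearIndependent_aux α β (u - u') v (-v') hα hβ h0 h0' hne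
    (hu.sub hu') hv hv'.neg (by linear_combination e2 - e1)
  exact hv0 h3.2.1

theorem not_linIndep_conj {t : ℝ} {α : ℂ} (h : ¬ LinIndep α (t : ℂ)) :
    ¬ LinIndep (starRingEnd ℂ α) (t : ℂ) := by
  intro hL
  apply h
  intro a b c ha hb hc habc
  have h4 := congrArg (starRingEnd ℂ) habc
  rw [map_zero, map_add, map_add, map_mul, map_mul, ← Complex.exp_conj, Complex.conj_ofReal] at h4
  obtain ⟨h5, h6, h7⟩ := hL _ _ _ (alg_conj ha) (alg_conj hb) (alg_conj hc) h4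
  exact ⟨(map_eq_zero (starRingEnd ℂ)).1 h5, (map_eq_zero (starRingEnd ℂ)).1 h6,
    (map_eq_zero (starRingEnd ℂ)).1 h7⟩

theorem linear_case {t : ℝ} (ht : Transcendental ℚ (t : ℂ)) :
    ∃ a : ℝ, ∀ α : ℂ, IsAlgebraic ℚ α → α ≠ 0 → α ≠ (a : ℂ) → LinIndep α (t : ℂ) := by
  by_cases hex : ∃ α : ℂ, IsAlgebraic ℚ α ∧ α ≠ 0 ∧ ¬ LinIndep α (t : ℂ)
  · obtain ⟨α, h1, h2, h3⟩ := hex
    have h4 : starRingEnd ℂ α = α :=
      unique_lin (alg_conj h1) (fun h => h2 ((map_eq_zero (starRingEnd ℂ)).1 h)) h1 h2 ht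
        (not_linIndep_conj h3) h3
    obtain ⟨a, ha⟩ := Complex.conj_eq_iff_real.1 h4
    refine ⟨a, fun β hβ h0 hne => ?_⟩
    by_contra hcon
    apply hne
    rw [← ha]
    exact unique_lin hβ h0 h1 h2 ht hcon h3
  · push Not at hex
    exact ⟨0, fun α h1 h2 _ => hex α h1 h2⟩

theorem location {t : ℝ} (ht : Transcendental ℚ (t : ℂ)) :
    ∃ a : ℂ, (a.im = 0 ∨ a.re = 0) ∧ ∀ m n : ℕ, ∀ α ∈ Exc m n (t : ℂ), ∃ r : ℚ, α = r * a := by
  by_cases hex : ∃ (m n : ℕ) (α : ℂ), α ∈ Exc m n (t : ℂ)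
  · obtain ⟨m, n, α, h⟩ := hex
    exact ⟨α, real_or_imag ht h, fun m' n' β hβ => exc_line ht h hβ⟩
  · push Not at hex
    exact ⟨0, Or.inl rfl, fun m n α h => absurd h (hex m n α)⟩

end Pool.Agent.TH507.ExpE
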