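import Mathlib
import Pool.Agent.TH507.ExpD

/-!
# Binomial relations between a power of `t` and an exponential
-/

set_option autoImplicit false

namespace Pool.Agent.TH507.ExpE

open Complex IntermediateField Polynomial

section poly

variable {F : Type} [Field F] [CharZero F]

theorem coeff_one_pow (a c : F) (l : ℕ) :
    ((C a - C c * X) ^ l : F[X]).coeff 1 = -(l * a ^ (l - 1) * c) := by
  have h1 : (derivative ((C a - C c * X) ^ l : F[X])).coeff 0 =
      ((C a - C c * X) ^ l : F[X]).coeff 1 := by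
    rw [coeff_derivative]; simp
  rw [← h1, derivative_pow, coeff_zero_eq_eval_zero]
  simp

omit [CharZero F] in
theorem expand_form (a c : F) (q l : ℕ) :
    ((C a - C c * X ^ q) ^ l : F[X]) = expand F q ((C a - C c * X) ^ l) := by
  simp [map_pow]

theorem lt_contra {a b c d : F} {p q l k : ℕ} (hq : 0 < q) (hqp : q < p) (hl : 0 < l)
    (ha : a ≠ 0) (hc : c ≠ 0)
    (h : ((C a - C c * X ^ q) ^ l : F[X]) = (C b - C d * X ^ p) ^ k) : False := by
  rw [expand_form, expand_form] at h
  have h1 := congrArg (fun f => coeff f q) h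
  beta_reduce at h1
  rw [coeff_expand hq, coeff_expand (by omega), if_pos dvd_rfl, Nat.div_self hq, coeff_one_pow,
    if_neg (fun hd => by have := Nat.le_of_dvd hq hd; omega)] at h1
  have h2 : (l : F) * a ^ (l - 1) * c ≠ 0 :=
    mul_ne_zero (mul_ne_zero (by exact_mod_cast hl.ne') (pow_ne_zero _ ha)) hc
  exact h2 (neg_eq_zero.1 h1)

omit [CharZero F] in
theorem natDegree_form {a c : F} (hc : c ≠ 0) {q : ℕ} :
    (C a - C c * X ^ q : F[X]).natDegree = q := by
  have h1 : (C a - C c * X ^ q : F[X]) = C (-c) * X ^ q + C a := by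
    rw [C_neg]; ring
  rw [h1, natDegree_add_C, natDegree_C_mul_X_pow _ _ (neg_ne_zero.2 hc)]

end poly

variable {z : ℂ}

theorem poly_zero (hz : Transcendental K z) {P : K[X]} (h : aeval z P = 0) : P = 0 := by
  by_contra hne
  exact hz ⟨P, hne, h⟩

theorem core1 (hz : Transcendental K z) {a b c d : K} {p q l k : ℕ} (hp : 0 < p) (hq : 0 < q)
    (hl : 0 < l) (hk : 0 < k) (ha : a ≠ 0) (hc : c ≠ 0) (hd : d ≠ 0)
    (h : ((a : ℂ) - c * z ^ q) ^ l = ((b : ℂ) - d * z ^ p) ^ k) : p = q ∧ l = k := by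
  have hP : ((C a - C c * X ^ q) ^ l : K[X]) = (C b - C d * X ^ p) ^ k := by
    rw [← sub_eq_zero]
    apply poly_zero hz
    simp only [map_sub, map_pow, map_mul, aeval_C, aeval_X]
    rw [sub_eq_zero]
    exact h
  have hb : b ≠ 0 := by
    rintro rfl
    have h1 := congrArg (eval 0) hP
    simp only [eval_pow, eval_sub, eval_C, eval_mul, eval_X, zero_pow hq.ne', zero_pow hp.ne',
      mul_zero, sub_zero, zero_pow hk.ne'] at h1
    exact pow_ne_zero l ha h1
  have hpq : p = q := by
    rcases lt_trichotomy p q with h1 | h1 | h1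
    · exact (lt_contra hp h1 hk hb hd hP.symm).elim
    · exact h1
    · exact (lt_contra hq h1 hl ha hc hP).elim
  refine ⟨hpq, ?_⟩
  have h2 := congrArg natDegree hP
  rw [natDegree_pow, natDegree_pow, natDegree_form hc, natDegree_form hd, hpq] at h2
  exact Nat.eq_of_mul_eq_mul_right hq h2

theorem core2 (hz : Transcendental K z) {a b c d : K} {p q l k : ℕ} (hp : 0 < p) (hk : 0 < k)
    (hd : d ≠ 0)
    (h : z ^ (p * k) * ((a : ℂ) - c * z ^ q) ^ l = ((b : ℂ) * z ^ p - d) ^ k) : False := by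
  have hP : (X ^ (p * k) * (C a - C c * X ^ q) ^ l : K[X]) = (C b * X ^ p - C d) ^ k := by
    rw [← sub_eq_zero]
    apply poly_zero hz
    simp only [map_sub, map_pow, map_mul, aeval_C, aeval_X]
    rw [sub_eq_zero]
    exact h
  have h1 := congrArg (eval 0) hP
  simp only [eval_pow, eval_sub, eval_C, eval_mul, eval_X, zero_pow hp.ne', mul_zero, zero_sub,
    zero_pow (Nat.mul_pos hp hk).ne', zero_mul] at h1
  exact pow_ne_zero k (neg_ne_zero.2 hd) h1.symm

theorem core3 (hz : Transcendental K z) {a b c d : K} {p q l k : ℕ} (hp : 0 < p) (hq : 0 < q)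
    (hl : 0 < l) (hc : c ≠ 0) (hd : d ≠ 0)
    (h : ((a : ℂ) - c * z ^ q) ^ l * ((b : ℂ) - d * z ^ p) ^ k = 1) : False := by
  have hP : ((C a - C c * X ^ q) ^ l * (C b - C d * X ^ p) ^ k : K[X]) = 1 := by
    rw [← sub_eq_zero]
    apply poly_zero hz
    simp only [map_sub, map_pow, map_mul, aeval_C, aeval_X, map_one]
    rw [sub_eq_zero]
    exact h
  have e1 := natDegree_form (a := a) (q := q) hc
  have e2 := natDegree_form (a := b) (q := p) hd
  have n1 : (C a - C c * X ^ q : K[X]) ≠ 0 := by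
    intro h0; rw [h0, natDegree_zero] at e1; omega
  have n2 : (C b - C d * X ^ p : K[X]) ≠ 0 := by
    intro h0; rw [h0, natDegree_zero] at e2; omega
  have h2 := congrArg natDegree hP
  rw [natDegree_mul (pow_ne_zero _ n1) (pow_ne_zero _ n2), natDegree_pow, natDegree_pow, e1, e2,
    natDegree_one] at h2
  have := Nat.mul_pos hl hq
  omega

theorem core4 (hz : Transcendental K z) {a b c d : K} {p q l k : ℕ} (hp : 0 < p) (hq : 0 < q)
    (hk : 0 < k) (ha : a ≠ 0) (hd : d ≠ 0)
    (h : ((a : ℂ) - c * z ^ q) ^ l * ((b : ℂ) * z ^ p - d) ^ k = z ^ (p * k)) : False := by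
  have hP : ((C a - C c * X ^ q) ^ l * (C b * X ^ p - C d) ^ k : K[X]) = X ^ (p * k) := by
    rw [← sub_eq_zero]
    apply poly_zero hz
    simp only [map_sub, map_pow, map_mul, aeval_C, aeval_X]
    rw [sub_eq_zero]
    exact h
  have h1 := congrArg (eval 0) hP
  simp only [eval_pow, eval_sub, eval_C, eval_mul, eval_X, zero_pow hp.ne', zero_pow hq.ne',
    mul_zero, zero_sub, sub_zero, zero_pow (Nat.mul_pos hp hk).ne'] at h1
  exact mul_ne_zero (pow_ne_zero l ha) (pow_ne_zero k (neg_ne_zero.2 hd)) h1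

end Pool.Agent.TH507.ExpE
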