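import Mathlib
import Pool.Agent.TH507.PowA

/-!
# At most one of the numbers `t ^ k + γ e ^ α` is a nonzero algebraic number
-/

set_option autoImplicit false

namespace Pool.Agent.TH507.ExpE

open Complex IntermediateField Polynomial

variable {z : ℂ}

theorem form_ne (hz : Transcendental K z) (b : K) {d : K} (hd : d ≠ 0) {p : ℕ} (hp : 0 < p) :
    (b : ℂ) - d * z ^ p ≠ 0 := by
  intro h
  have hP : (C b - C d * X ^ p : K[X]) = 0 := by
    apply poly_zero hz
    simp only [map_sub, map_pow, map_mul, aeval_C, aeval_X]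
    exact h
  have h1 := natDegree_form (a := b) (q := p) hd
  rw [hP, natDegree_zero] at h1
  omega

theorem form_ne' (hz : Transcendental K z) (b : K) {d : K} (hd : d ≠ 0) {p : ℕ} (hp : 0 < p) :
    (b : ℂ) * z ^ p - d ≠ 0 := by
  intro h
  have hP : (C b * X ^ p - C d : K[X]) = 0 := by
    apply poly_zero hz
    simp only [map_sub, map_pow, map_mul, aeval_C, aeval_X]
    exact h
  have h1 := congrArg (eval 0) hP
  simp only [eval_pow, eval_sub, eval_C, eval_mul, eval_X, zero_pow hp.ne', mul_zero, zero_sub,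
    eval_zero] at h1
  exact neg_ne_zero.2 hd h1

theorem coreN (hz : Transcendental K z) {a b c d : K} {q l : ℕ} {p k : ℤ} (hq : 0 < q)
    (hl : 0 < l) (hp : p ≠ 0) (hk : k ≠ 0) (ha : a ≠ 0) (hc : c ≠ 0) (hd : d ≠ 0)
    (h : ((a : ℂ) - c * z ^ q) ^ l = ((b : ℂ) - d * z ^ p) ^ k) : p = q ∧ (l : ℤ) = k := by
  have hz0 : z ≠ 0 := by
    rintro rfl
    exact hz isAlgebraic_zero
  obtain ⟨P, hP | hP⟩ := p.eq_nat_or_neg <;> obtain ⟨κ, hκ | hκ⟩ := k.eq_nat_or_neg
  · have hP0 : 0 < P := by omega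
    have hκ0 : 0 < κ := by omega
    rw [hP, hκ, zpow_natCast, zpow_natCast] at h
    obtain ⟨h1, h2⟩ := core1 hz hP0 hq hl hκ0 ha hc hd h
    constructor <;> omega
  · exfalso
    have hP0 : 0 < P := by omega
    have hκ0 : 0 < κ := by omega
    rw [hP, hκ, zpow_natCast, zpow_neg, zpow_natCast] at h
    refine core3 hz hP0 hq hl hc hd (a := a) (b := b) (k := κ) ?_
    rw [h, inv_mul_cancel₀ (pow_ne_zero _ (form_ne hz b hd hP0))]
  · exfalso
    have hP0 : 0 < P := by omega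
    have hκ0 : 0 < κ := by omega
    rw [hP, hκ, zpow_natCast, zpow_neg, zpow_natCast] at h
    refine core2 hz hP0 hκ0 hd (a := a) (b := b) (c := c) (q := q) (l := l) ?_
    rw [h, pow_mul, ← mul_pow]
    congr 1
    field_simp
  · exfalso
    have hP0 : 0 < P := by omega
    have hκ0 : 0 < κ := by omega
    rw [hP, hκ, zpow_neg, zpow_neg, zpow_natCast, zpow_natCast] at h
    refine core4 hz hP0 hq hκ0 ha hd (b := b) (c := c) (l := l) ?_
    have hne := form_ne' hz b hd hP0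
    have e : (b : ℂ) * z ^ P - d = ((b : ℂ) - d * (z ^ P)⁻¹) * z ^ P := by field_simp
    have hne' : (b : ℂ) - d * (z ^ P)⁻¹ ≠ 0 := by
      intro h0
      apply hne
      rw [e, h0, zero_mul]
    rw [h, e, mul_pow, ← mul_assoc, inv_mul_cancel₀ (pow_ne_zero _ hne'), one_mul, ← pow_mul]

theorem coreZ (hz : Transcendental K z) {a b c d : K} {q : ℕ} {p l k : ℤ} (hq : 0 < q)
    (hl : l ≠ 0) (hp : p ≠ 0) (hk : k ≠ 0) (ha : a ≠ 0) (hc : c ≠ 0) (hd : d ≠ 0)
    (h : ((a : ℂ) - c * z ^ q) ^ l = ((b : ℂ) - d * z ^ p) ^ k) : p = q ∧ l = k := by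
  obtain ⟨L, hL | hL⟩ := l.eq_nat_or_neg
  · rw [hL, zpow_natCast] at h
    obtain ⟨h1, h2⟩ := coreN hz hq (by omega) hp hk ha hc hd h
    exact ⟨h1, by omega⟩
  · rw [hL, zpow_neg, zpow_natCast] at h
    have h' : ((a : ℂ) - c * z ^ q) ^ L = ((b : ℂ) - d * z ^ p) ^ (-k) := by
      rw [zpow_neg, ← h, inv_inv]
    obtain ⟨h1, h2⟩ := coreN hz hq (by omega) hp (neg_ne_zero.2 hk) ha hc hd h'
    exact ⟨h1, by omega⟩

theorem main {t : ℂ} {k l : ℤ} (hk : k ≠ 0) (hl : l ≠ 0)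
    {α β c d : ℂ} (hα : IsAlgebraic ℚ α) (hβ : IsAlgebraic ℚ β) (hc : IsAlgebraic ℚ c)
    (hd : IsAlgebraic ℚ d) (hα0 : α ≠ 0) (hβ0 : β ≠ 0) (hc0 : c ≠ 0) (hd0 : d ≠ 0)
    (h1 : IsAlgebraic ℚ (t ^ k + c * Complex.exp α)) (h1' : t ^ k + c * Complex.exp α ≠ 0)
    (h2 : IsAlgebraic ℚ (t ^ l + d * Complex.exp β)) : k = l ∧ α = β ∧ c = d := by
  set a := t ^ k + c * Complex.exp α with ha
  set b := t ^ l + d * Complex.exp β with hb
  have e1 : t ^ k = a - c * Complex.exp α := by rw [ha]; ring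
  have e2 : t ^ l = b - d * Complex.exp β := by rw [hb]; ring
  have memK : ∀ (x : ℂ), IsAlgebraic ℚ x → ∀ y : ℂ, x ∈ K⟮y⟯ := fun x hx y =>
    IntermediateField.algebraMap_mem K⟮y⟯ (⟨x, mem_K.2 hx⟩ : K)
  -- the exponents are proportional
  have f1 : IsAlgebraic K⟮Complex.exp α⟯ t := by
    have m1 : t ^ k ∈ K⟮Complex.exp α⟯ := by
      rw [e1]
      exact sub_mem (memK a h1 _) (mul_mem (memK c hc _) (mem_adjoin_simple_self K _))
    have m2 : t ^ k.natAbs ∈ K⟮Complex.exp α⟯ := by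
      rcases Int.natAbs_eq k with hh | hh
      · rw [hh, zpow_natCast] at m1; exact m1
      · rw [hh, zpow_neg, zpow_natCast] at m1
        have := inv_mem m1
        rwa [inv_inv] at this
    have m3 : IsAlgebraic K⟮Complex.exp α⟯ (t ^ k.natAbs) :=
      isAlgebraic_algebraMap (⟨_, m2⟩ : K⟮Complex.exp α⟯)
    exact m3.of_pow (by omega)
  have f2 : IsAlgebraic K⟮t⟯ (Complex.exp β) := by
    have m1 : Complex.exp β ∈ K⟮t⟯ := by
      have : Complex.exp β = (b - t ^ l) * d⁻¹ := by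
        rw [e2]; field_simp; ring
      rw [this]
      exact mul_mem (sub_mem (memK b h2 _) (zpow_mem (mem_adjoin_simple_self K _) l))
        (inv_mem (memK d hd _))
    exact isAlgebraic_algebraMap (⟨_, m1⟩ : K⟮t⟯)
  obtain ⟨r, hr⟩ := ratio_of_alg hα hβ hα0 f1 f2
  have hr0 : r ≠ 0 := by
    rintro rfl
    apply hβ0
    rw [hr]; simp
  have hden : (r.den : ℂ) ≠ 0 := by exact_mod_cast r.den_nz
  set z := Complex.exp (α / r.den) with hz
  have g1 : Complex.exp α = z ^ r.den := by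
    rw [hz, ← Complex.exp_nat_mul]; congr 1; field_simp
  have g2 : Complex.exp β = z ^ r.num := by
    rw [hz, ← Complex.exp_int_mul, hr]
    congr 1
    have : (r : ℂ) = (r.num : ℂ) / (r.den : ℂ) := by
      conv_lhs => rw [← Rat.num_div_den r]
      push_cast
      rfl
    rw [this]
    field_simp
  have hzt : Transcendental K z := by
    apply exp_trans
    · rw [div_eq_mul_inv]
      exact hα.mul (isAlgebraic_natCast (R := ℚ) (A := ℂ) r.den).inv
    · exact div_ne_zero hα0 hden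
  have key : (a - c * z ^ r.den) ^ l = (b - d * z ^ r.num) ^ k := by
    rw [← g1, ← g2, ← e1, ← e2, ← zpow_mul, ← zpow_mul, mul_comm]
  have hk' := coreZ hzt (a := ⟨a, mem_K.2 h1⟩) (b := ⟨b, mem_K.2 h2⟩) (c := ⟨c, mem_K.2 hc⟩)
    (d := ⟨d, mem_K.2 hd⟩) r.pos hl (Rat.num_ne_zero.2 hr0) hk
    (fun h => h1' (congrArg Subtype.val h)) (fun h => hc0 (congrArg Subtype.val h))
    (fun h => hd0 (congrArg Subtype.val h)) key
  obtain ⟨k1, k2⟩ := hk'
  have hr1 : r = 1 := by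
    have h3 : (r.num : ℚ) / r.den = 1 := by
      rw [k1]
      push_cast
      exact div_self (by exact_mod_cast r.den_nz)
    rwa [Rat.num_div_den] at h3
  have hαβ : α = β := by rw [hr, hr1]; simp
  refine ⟨k2.symm, hαβ, ?_⟩
  by_contra hcd
  apply Pool.Agent.H340R2.LW.transcendental_cexp α hα hα0
  have e3 : Complex.exp α = (a - b) * (c - d)⁻¹ := by
    have h5 : c - d ≠ 0 := sub_ne_zero.2 hcd
    have h6 : a - c * Complex.exp α = b - d * Complex.exp α := by
      rw [← e1, ← k2, e2, hαβ]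
    field_simp
    linear_combination -h6
  rw [e3]
  exact (h1.sub h2).mul (hc.sub hd).inv

end Pool.Agent.TH507.ExpE
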