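import Mathlib
import Pool.Agent.TH507.ExpD

/-!
# The support of a number which is algebraic over exponentials of algebraic numbers
-/

set_option autoImplicit false

namespace Pool.Agent.TH507.ExpE

open Complex Set

/-- the matroid of algebraic dependence over the algebraic numbers -/
noncomputable abbrev M : Matroid ℂ := AlgebraicIndependent.matroid K ℂ

theorem mem_cl {S : Set ℂ} {x : ℂ} : x ∈ M.closure S ↔ IsAlgebraic (Algebra.adjoin K S) x := by
  rw [AlgebraicIndependent.matroid_closure_eq, SetLike.mem_coe, Subalgebra.mem_algebraicClosure]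

/-- Exponentials of linearly independent algebraic numbers are algebraically independent. -/
theorem indep_exp {B : Set ℂ} (halg : ∀ b ∈ B, IsAlgebraic ℚ b) (hB : LinearIndepOn ℚ id B) :
    M.Indep (Complex.exp '' B) := by
  rw [AlgebraicIndependent.matroid_indep_iff]
  have h1 : AlgebraicIndependent K (fun b : B => Complex.exp (b : ℂ)) := by
    apply algebraicIndependent_of_finite_type
    intro T hT
    have := hT.fintype
    apply lw_algInd (fun i : T => ((i : B) : ℂ)) (fun i => halg _ (i : B).2)
    have h2 : LinearIndependent ℚ (fun b : B => (b : ℂ)) := hB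
    exact h2.comp _ Subtype.val_injective
  have h2 := h1.coe_range
  have h3 : Set.range (fun b : B => Complex.exp (b : ℂ)) = Complex.exp '' B := by
    rw [Set.image_eq_range]
  rw [h3] at h2
  exact h2

theorem injOn_exp {B : Set ℂ} (halg : ∀ b ∈ B, IsAlgebraic ℚ b) : Set.InjOn Complex.exp B := by
  intro a ha b hb hab
  by_contra hne
  have h1 : Complex.exp (a - b) = 1 := by
    rw [Complex.exp_sub, hab, div_self (Complex.exp_ne_zero _)]
  apply Pool.Agent.H340R2.LW.transcendental_cexp (a - b) ((halg a ha).sub (halg b hb))
    (sub_ne_zero.2 hne)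
  rw [h1]
  exact isAlgebraic_one

/-- the exponentials of a span are algebraic over the exponentials of the generators -/
theorem cl_span (B : Set ℂ) :
    M.closure (Complex.exp '' (Submodule.span ℚ B : Submodule ℚ ℂ)) =
      M.closure (Complex.exp '' B) := by
  apply subset_antisymm
  · apply M.closure_subset_closure_of_subset_closure
    rintro _ ⟨v, hv, rfl⟩
    rw [mem_cl]
    induction hv using Submodule.span_induction with
    | mem x hx =>
      have : Complex.exp x ∈ Algebra.adjoin K (Complex.exp '' B) :=
        Algebra.subset_adjoin ⟨x, hx, rfl⟩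
      exact isAlgebraic_algebraMap (⟨_, this⟩ : Algebra.adjoin K (Complex.exp '' B))
    | zero => rw [Complex.exp_zero]; exact isAlgebraic_one
    | add x y _ _ hx hy => rw [Complex.exp_add]; exact hx.mul hy
    | smul r x _ hx =>
      have hden : (r.den : ℂ) ≠ 0 := by exact_mod_cast r.den_nz
      have e : Complex.exp (r • x) ^ r.den = Complex.exp x ^ r.num := by
        rw [← Complex.exp_nat_mul, ← Complex.exp_int_mul, Rat.smul_def]
        congr 1
        have : (r : ℂ) = (r.num : ℂ) / (r.den : ℂ) := by
          conv_lhs => rw [← Rat.num_div_den r]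
          push_cast
          rfl
        rw [this]
        field_simp
      have h1 : IsAlgebraic (Algebra.adjoin K (Complex.exp '' B)) (Complex.exp x ^ r.num) := by
        obtain ⟨n, hn | hn⟩ := r.num.eq_nat_or_neg
        · rw [hn, zpow_natCast]; exact hx.pow n
        · rw [hn, zpow_neg, zpow_natCast]; exact (hx.pow n).inv
      rw [← e] at h1
      exact h1.of_pow r.pos
  · exact M.closure_subset_closure (Set.image_mono Submodule.subset_span)

/-- The closures of the exponentials of two spaces meet in the closure of the exponentials of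
their intersection. -/
theorem cl_inter (V W : Submodule ℚ ℂ) (hV : ∀ v ∈ V, IsAlgebraic ℚ v)
    (hW : ∀ w ∈ W, IsAlgebraic ℚ w) :
    M.closure (Complex.exp '' (V : Set ℂ)) ∩ M.closure (Complex.exp '' (W : Set ℂ)) =
      M.closure (Complex.exp '' ((V ⊓ W : Submodule ℚ ℂ) : Set ℂ)) := by
  obtain ⟨B0, hB0, hs0⟩ : ∃ B0 : Set ℂ, LinearIndepOn ℚ id B0 ∧
      Submodule.span ℚ B0 = V ⊓ W := by
    have h := (linearIndepOn_empty ℚ (id : ℂ → ℂ))
    refine ⟨h.extend (Set.empty_subset ((V ⊓ W : Submodule ℚ ℂ) : Set ℂ)),
      h.linearIndepOn_extend _, ?_⟩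
    apply le_antisymm
    · rw [Submodule.span_le]; exact h.extend_subset _
    · exact h.subset_span_extend _
  have h0V : B0 ⊆ (V : Set ℂ) := fun b hb => by
    have : b ∈ Submodule.span ℚ B0 := Submodule.subset_span hb
    rw [hs0] at this; exact this.1
  have h0W : B0 ⊆ (W : Set ℂ) := fun b hb => by
    have : b ∈ Submodule.span ℚ B0 := Submodule.subset_span hb
    rw [hs0] at this; exact this.2
  set B1 := hB0.extend h0V with hB1
  set B2 := hB0.extend h0W with hB2
  have i1 : LinearIndepOn ℚ id B1 := hB0.linearIndepOn_extend h0V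
  have i2 : LinearIndepOn ℚ id B2 := hB0.linearIndepOn_extend h0W
  have s1 : Submodule.span ℚ B1 = V := by
    apply le_antisymm
    · rw [Submodule.span_le]; exact hB0.extend_subset _
    · exact hB0.subset_span_extend _
  have s2 : Submodule.span ℚ B2 = W := by
    apply le_antisymm
    · rw [Submodule.span_le]; exact hB0.extend_subset _
    · exact hB0.subset_span_extend _
  have c1 : B0 ⊆ B1 := hB0.subset_extend _
  have c2 : B0 ⊆ B2 := hB0.subset_extend _
  -- the part of `B2` outside `B0`
  have hd : Disjoint (Submodule.span ℚ B1) (Submodule.span ℚ (B2 \ B0)) := by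
    rw [Submodule.disjoint_def]
    intro x hx1 hx2
    have hxW : x ∈ W := by
      rw [← s2]; exact Submodule.span_mono Set.sdiff_subset hx2
    have hx0 : x ∈ Submodule.span ℚ B0 := by
      rw [hs0]; exact ⟨by rwa [s1] at hx1, hxW⟩
    have h3 := (linearIndepOn_id_union_iff (Set.disjoint_sdiff_right (s := B0) (t := B2))).1 (by
      rw [Set.union_sdiff_cancel c2]; exact i2)
    exact (Submodule.disjoint_def.1 h3.2.2) x hx0 hx2
  have hU : LinearIndepOn ℚ id (B1 ∪ B2) := by
    have h4 : LinearIndepOn ℚ id (B1 ∪ (B2 \ B0)) :=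
      i1.id_union (i2.mono Set.sdiff_subset) hd
    have h5 : B1 ∪ (B2 \ B0) = B1 ∪ B2 := by
      ext x
      simp only [Set.mem_union, Set.mem_sdiff]
      constructor
      · rintro (h | h)
        · exact Or.inl h
        · exact Or.inr h.1
      · rintro (h | h)
        · exact Or.inl h
        · by_cases hx : x ∈ B0
          · exact Or.inl (c1 hx)
          · exact Or.inr ⟨h, hx⟩
    rwa [h5] at h4
  have halg : ∀ b ∈ B1 ∪ B2, IsAlgebraic ℚ b := by
    rintro b (hb | hb)
    · exact hV b (by rw [← s1]; exact Submodule.subset_span hb)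
    · exact hW b (by rw [← s2]; exact Submodule.subset_span hb)
  have hInd := indep_exp halg hU
  have hinj := injOn_exp halg
  have hint : B1 ∩ B2 = B0 := by
    apply subset_antisymm
    · rintro x ⟨hx1, hx2⟩
      by_contra hx0
      have h6 := (Submodule.disjoint_def.1 hd) x (Submodule.subset_span hx1)
        (Submodule.subset_span ⟨hx2, hx0⟩)
      have h7 := i1.ne_zero hx1
      exact h7 h6
    · exact Set.subset_inter c1 c2
  have e1 : M.closure (Complex.exp '' (V : Set ℂ)) = M.closure (Complex.exp '' B1) := by
    rw [← cl_span B1, s1]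
  have e2 : M.closure (Complex.exp '' (W : Set ℂ)) = M.closure (Complex.exp '' B2) := by
    rw [← cl_span B2, s2]
  have e3 : M.closure (Complex.exp '' ((V ⊓ W : Submodule ℚ ℂ) : Set ℂ)) =
      M.closure (Complex.exp '' B0) := by
    rw [← cl_span B0, hs0]
  rw [e1, e2, e3, ← hint, hinj.image_inter Set.subset_union_left Set.subset_union_right]
  refine (Matroid.Indep.closure_inter_eq_inter_closure ?_).symm
  rw [← Set.image_union]
  exact hInd

end Pool.Agent.TH507.ExpE
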