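import Mathlib
import Pool.Agent.TH507.SupA

/-!
# The support: existence, symmetry, consequences
-/

set_option autoImplicit false

namespace Pool.Agent.TH507.ExpE

open Complex Set

/-- Existence of the support. -/
theorem exists_support (t : ℂ) (V : Submodule ℚ ℂ) (hV : ∀ v ∈ V, IsAlgebraic ℚ v)
    (h : t ∈ M.closure (Complex.exp '' (V : Set ℂ))) :
    ∃ V0 : Submodule ℚ ℂ, FiniteDimensional ℚ V0 ∧ (∀ v ∈ V0, IsAlgebraic ℚ v) ∧
      ∀ W : Submodule ℚ ℂ, (∀ w ∈ W, IsAlgebraic ℚ w) →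
        (t ∈ M.closure (Complex.exp '' (W : Set ℂ)) ↔ V0 ≤ W) := by
  classical
  -- a finite dimensional space
  obtain ⟨S, hSV, hSfin, -, hS⟩ := Matroid.exists_mem_finite_closure_of_mem_closure h
  obtain ⟨T, hTV, hTfin, rfl⟩ := Set.exists_subset_image_finite_and.1 ⟨S, hSV, hSfin, rfl⟩
  have hex : ∃ n : ℕ, ∃ W : Submodule ℚ ℂ, FiniteDimensional ℚ W ∧ (∀ w ∈ W, IsAlgebraic ℚ w) ∧
      t ∈ M.closure (Complex.exp '' (W : Set ℂ)) ∧ Module.finrank ℚ W = n := by
    refine ⟨_, Submodule.span ℚ T, FiniteDimensional.span_of_finite ℚ hTfin, ?_, ?_, rfl⟩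
    · intro w hw
      exact hV w ((Submodule.span_le.2 hTV) hw)
    · rw [cl_span]; exact hS
  obtain ⟨V0, hfd, halg, hmem, hrank⟩ := Nat.find_spec hex
  refine ⟨V0, hfd, halg, fun W hW => ⟨fun hW' => ?_, fun hle => ?_⟩⟩
  · have h1 : t ∈ M.closure (Complex.exp '' ((V0 ⊓ W : Submodule ℚ ℂ) : Set ℂ)) := by
      rw [← cl_inter V0 W halg hW]; exact ⟨hmem, hW'⟩
    have hfd' : FiniteDimensional ℚ (V0 ⊓ W : Submodule ℚ ℂ) :=
      Submodule.finiteDimensional_inf_left V0 W
    have h2 : Nat.find hex ≤ Module.finrank ℚ (V0 ⊓ W : Submodule ℚ ℂ) :=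
      Nat.find_min' hex ⟨V0 ⊓ W, hfd', fun w hw => halg w hw.1, h1, rfl⟩
    rw [← hrank] at h2
    have h3 := Submodule.eq_of_le_of_finrank_le (inf_le_left : V0 ⊓ W ≤ V0) h2
    rw [← h3]
    exact inf_le_right
  · exact M.closure_subset_closure (Set.image_mono hle) hmem

theorem conj_mem_adjoin (S : Set ℂ) {x : ℂ} (hx : x ∈ Algebra.adjoin K S) :
    starRingEnd ℂ x ∈ Algebra.adjoin K (starRingEnd ℂ '' S) := by
  induction hx using Algebra.adjoin_induction with
  | mem x hx => exact Algebra.subset_adjoin ⟨x, hx, rfl⟩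
  | algebraMap r =>
    have h1 : starRingEnd ℂ (r : ℂ) ∈ K := mem_K.2 (alg_conj (mem_K.1 r.2))
    exact Subalgebra.algebraMap_mem (Algebra.adjoin K (starRingEnd ℂ '' S)) (⟨_, h1⟩ : K)
  | add x y _ _ hx hy => rw [map_add]; exact add_mem hx hy
  | mul x y _ _ hx hy => rw [map_mul]; exact mul_mem hx hy

theorem conj_alg (S : Set ℂ) {x : ℂ} (hx : IsAlgebraic (Algebra.adjoin K S) x) :
    IsAlgebraic (Algebra.adjoin K (starRingEnd ℂ '' S)) (starRingEnd ℂ x) := by
  obtain ⟨p, hp0, hp⟩ := hx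
  let φ : Algebra.adjoin K S →+* Algebra.adjoin K (starRingEnd ℂ '' S) :=
    ((starRingEnd ℂ).comp (Algebra.adjoin K S).val.toRingHom).codRestrict
      (Algebra.adjoin K (starRingEnd ℂ '' S)) (fun x => conj_mem_adjoin S x.2)
  have hφ : Function.Injective φ := by
    intro a b hab
    have h1 := congrArg Subtype.val hab
    exact Subtype.ext ((starRingEnd ℂ).injective h1)
  refine ⟨p.map φ, ?_, ?_⟩
  · rwa [Ne, Polynomial.map_eq_zero_iff hφ]
  · rw [Polynomial.aeval_def, Polynomial.eval₂_map]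
    rw [Polynomial.aeval_def] at hp
    have h2 := congrArg (starRingEnd ℂ) hp
    rw [map_zero, Polynomial.hom_eval₂] at h2
    exact h2

/-- complex conjugation as a linear map over the rational numbers -/
noncomputable def conjQ : ℂ →ₗ[ℚ] ℂ := (Complex.conjAe.toAlgHom.restrictScalars ℚ).toLinearMap

theorem conjQ_apply (z : ℂ) : conjQ z = starRingEnd ℂ z := rfl

theorem conj_exp_image (V : Submodule ℚ ℂ) :
    starRingEnd ℂ '' (Complex.exp '' (V : Set ℂ)) =
      Complex.exp '' ((V.map conjQ : Submodule ℚ ℂ) : Set ℂ) := by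
  ext z
  simp only [Set.mem_image, SetLike.mem_coe, Submodule.mem_map]
  constructor
  · rintro ⟨_, ⟨v, hv, rfl⟩, rfl⟩
    exact ⟨conjQ v, ⟨v, hv, rfl⟩, by rw [conjQ_apply, Complex.exp_conj]⟩
  · rintro ⟨_, ⟨v, hv, rfl⟩, rfl⟩
    exact ⟨_, ⟨v, hv, rfl⟩, by rw [conjQ_apply, Complex.exp_conj]⟩

theorem cl_conj {t : ℝ} {V : Submodule ℚ ℂ}
    (h : (t : ℂ) ∈ M.closure (Complex.exp '' (V : Set ℂ))) :
    (t : ℂ) ∈ M.closure (Complex.exp '' ((V.map conjQ : Submodule ℚ ℂ) : Set ℂ)) := by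
  rw [mem_cl] at h ⊢
  have h1 := conj_alg _ h
  rw [conj_exp_image, Complex.conj_ofReal] at h1
  exact h1

theorem alg_map {V : Submodule ℚ ℂ} (hV : ∀ v ∈ V, IsAlgebraic ℚ v) :
    ∀ v ∈ V.map conjQ, IsAlgebraic ℚ v := by
  rintro _ ⟨v, hv, rfl⟩
  exact alg_conj (hV v hv)

/-- The support of a real number is symmetric. -/
theorem support_conj {t : ℝ} {V0 : Submodule ℚ ℂ} (halg : ∀ v ∈ V0, IsAlgebraic ℚ v)
    (h : ∀ W : Submodule ℚ ℂ, (∀ w ∈ W, IsAlgebraic ℚ w) →
        ((t : ℂ) ∈ M.closure (Complex.exp '' (W : Set ℂ)) ↔ V0 ≤ W)) :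
    ∀ v ∈ V0, starRingEnd ℂ v ∈ V0 := by
  intro v hv
  have h1 : (t : ℂ) ∈ M.closure (Complex.exp '' (V0 : Set ℂ)) := (h V0 halg).2 le_rfl
  have h2 := (h _ (alg_map halg)).1 (cl_conj h1)
  obtain ⟨w, hw, hwv⟩ := h2 hv
  rw [← hwv, conjQ_apply, Complex.conj_conj]
  exact hw

/-- Algebraic independence of a real number and exponentials. -/
theorem real_indep {t : ℝ} (ht : Transcendental ℚ (t : ℂ)) (n : ℕ) (α : Fin n → ℂ)
    (hα : ∀ i, IsAlgebraic ℚ (α i))
    (hli : LinearIndependent ℚ (Sum.elim α (fun i => starRingEnd ℂ (α i)))) :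
    AlgebraicIndependent K (fun o : Option (Fin n) => o.elim (t : ℂ) (fun i => Complex.exp (α i))) := by
  rw [linearIndependent_sum] at hli
  obtain ⟨h1, -, h3⟩ := hli
  have h4 : AlgebraicIndependent K (fun i => Complex.exp (α i)) := lw_algInd α hα h1
  rw [h4.option_iff_transcendental]
  intro h5
  apply ht
  set V : Submodule ℚ ℂ := Submodule.span ℚ (Set.range α) with hV
  have hValg : ∀ v ∈ V, IsAlgebraic ℚ v := by
    intro v hv
    induction hv using Submodule.span_induction with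
    | mem x hx => obtain ⟨i, rfl⟩ := hx; exact hα i
    | zero => exact isAlgebraic_zero
    | add x y _ _ hx hy => exact hx.add hy
    | smul r x _ hx => exact hx.smul r
  have h6 : (t : ℂ) ∈ M.closure (Complex.exp '' (V : Set ℂ)) := by
    rw [cl_span, mem_cl]
    have : Complex.exp '' Set.range α = Set.range (fun i => Complex.exp (α i)) := by
      rw [← Set.range_comp]; rfl
    rw [this]
    exact h5
  have h7 := cl_conj h6
  have h8 : (t : ℂ) ∈ M.closure (Complex.exp '' ((V ⊓ V.map conjQ : Submodule ℚ ℂ) : Set ℂ)) := by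
    rw [← cl_inter V (V.map conjQ) hValg (alg_map hValg)]
    exact ⟨h6, h7⟩
  have h9 : V ⊓ V.map conjQ = ⊥ := by
    rw [← disjoint_iff, hV, Submodule.map_span]
    have e1 : conjQ '' Set.range α = Set.range (fun i => starRingEnd ℂ (α i)) := by
      rw [← Set.range_comp]; rfl
    rw [e1]
    exact h3
  rw [h9, Submodule.bot_coe, Set.image_singleton, Complex.exp_zero, mem_cl] at h8
  rw [Algebra.adjoin_singleton_one, ← Algebra.adjoin_empty] at h8
  by_contra hcon
  have h11 : AlgebraicIndependent K (fun i : Fin 0 => (i.elim0 : ℂ)) :=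
    algebraicIndependent_empty_type
  have h12 := (h11.option_iff_transcendental (t : ℂ)).1 (by
    let _ : Unique (Option (Fin 0)) := ⟨⟨none⟩, fun o => by
      cases o with
      | none => rfl
      | some i => exact i.elim0⟩
    rw [algebraicIndependent_unique_type_iff]
    exact trans_K hcon)
  rw [Set.range_eq_empty] at h12
  exact h12 h8

end Pool.Agent.TH507.ExpE
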