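import Mathlib
import Pool.Agent.TH507.SupB

/-!
# The four numbers `t + e ^ α`, `t - e ^ α`, `t e ^ α`, `t / e ^ α`
-/

set_option autoImplicit false

namespace Pool.Agent.TH507.ExpE

open Complex Set

theorem related11 {x y a b c d : ℂ} (ha : IsAlgebraic ℚ a) (hb : IsAlgebraic ℚ b)
    (hc : IsAlgebraic ℚ c) (hd : IsAlgebraic ℚ d) (hne : b ≠ 0 ∨ d ≠ 0)
    (h : a + b * x + c * y + d * (x * y) = 0) : Related 1 1 x y := by
  refine ⟨fun i j => if i = 0 then (if j = 0 then a else c) else (if j = 0 then b else d),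
    ?_, ?_, ?_⟩
  · intro i j
    dsimp only
    split_ifs
    · exact ha
    · exact hc
    · exact hb
    · exact hd
  · rcases hne with hne | hne
    · exact ⟨1, le_rfl, 0, Nat.zero_le _, by simpa using hne⟩
    · exact ⟨1, le_rfl, 1, le_rfl, by simpa using hne⟩
  · simp only [Finset.sum_range_succ, Finset.sum_range_zero]
    simp only [zero_add, if_true, one_ne_zero, if_false, pow_zero, pow_one, mul_one]
    rw [← h]
    ring

theorem four {t : ℝ} (ht : Transcendental ℚ (t : ℂ)) {α : ℂ} (hα : IsAlgebraic ℚ α)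
    (hre : α.re ≠ 0) (him : α.im ≠ 0) :
    Transcendental ℚ ((t : ℂ) + Complex.exp α) ∧ Transcendental ℚ ((t : ℂ) - Complex.exp α) ∧
    Transcendental ℚ ((t : ℂ) * Complex.exp α) ∧ Transcendental ℚ ((t : ℂ) / Complex.exp α) := by
  have h0 : α ≠ 0 := by rintro rfl; exact hre rfl
  have key : ¬ Related 1 1 (t : ℂ) (Complex.exp α) := by
    intro h
    rcases real_or_imag ht (⟨h0, hα, h⟩ : α ∈ Exc 1 1 (t : ℂ)) with h1 | h1
    · exact him h1
    · exact hre h1
  have hexp := Complex.exp_ne_zero α
  refine ⟨fun h => key ?_, fun h => key ?_, fun h => key ?_, fun h => key ?_⟩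
  · exact related11 h.neg isAlgebraic_one isAlgebraic_one isAlgebraic_zero
      (Or.inl one_ne_zero) (by ring)
  · exact related11 h.neg isAlgebraic_one isAlgebraic_one.neg isAlgebraic_zero
      (Or.inl one_ne_zero) (by ring)
  · exact related11 h.neg isAlgebraic_zero isAlgebraic_zero isAlgebraic_one
      (Or.inr one_ne_zero) (by ring)
  · exact related11 isAlgebraic_zero isAlgebraic_one h.neg isAlgebraic_zero
      (Or.inl one_ne_zero) (by field_simp; ring)

end Pool.Agent.TH507.ExpE
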